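import Pool.Agent.Lib_helper70.Lad.Defs

set_option autoImplicit false

namespace Pool.Agent.Lib_helper70.Lad

open Set Cardinal Topology Filter Order
open Pool.Agent.Lib_helper70.Cor Pool.Agent.Lib_helper89.Corson

theorem cl_mk_finset_lt {α : Type} [LinearOrder α] [WellFoundedLT α] [IsRegularCardinalOrder α]
    (hα : ℵ₀ < #α) (y : α) : #(Finset (Iio y)) < #α := by
  classical
  have h2 : #(Finset (Iio y)) ≤ #(List (Iio y)) :=
    mk_le_of_surjective (f := List.toFinset) fun s => ⟨s.toList, Finset.toList_toFinset s⟩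
  exact h2.trans_lt ((mk_list_le_max _).trans_lt (max_lt hα (mk_Iio_lt' y)))

theorem cl_step {α : Type} [LinearOrder α] [WellFoundedLT α] [IsRegularCardinalOrder α]
    (hα : ℵ₀ < #α) (F : Finset α → Set α) (hF : ∀ s, (F s).Countable) (y : α) :
    ∃ z, y < z ∧ ∀ s : Finset α, (s : Set α) ⊆ Iio y → F s ⊆ Iio z := by
  classical
  have h1 : #(⋃ s : Finset (Iio y), F (s.map (Function.Embedding.subtype _))) < #α := by
    refine (mk_iUnion_le _).trans_lt ?_
    have h3 : (⨆ s : Finset (Iio y), #(F (s.map (Function.Embedding.subtype _)))) ≤ ℵ₀ :=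
      ciSup_le' fun s => (hF _).le_aleph0
    refine (mul_le_mul' le_rfl h3).trans_lt ?_
    exact mul_lt_of_lt hα.le (cl_mk_finset_lt hα y) hα
  obtain ⟨a, ha⟩ := bdd_of_card h1
  obtain ⟨b, hb⟩ := bdd_of_card (s := ({y} : Set α)) (by
    rw [Cardinal.mk_singleton]
    exact one_lt_aleph0.trans hα)
  refine ⟨max a b, lt_max_of_lt_right (hb y rfl), fun s hs z hz => lt_max_of_lt_left (ha z ?_)⟩
  refine mem_iUnion.2 ⟨s.attach.map ⟨fun x => ⟨x.1, hs x.2⟩, fun x y h => Subtype.ext
    (by simpa using h)⟩, ?_⟩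
  have h4 : (s.attach.map ⟨fun x => (⟨x.1, hs x.2⟩ : Iio y), fun x y h => Subtype.ext
    (by simpa using h)⟩).map (Function.Embedding.subtype _) = s := by
    ext x
    simp only [Finset.mem_map, Finset.mem_attach, true_and, Subtype.exists,
      Function.Embedding.subtype_apply]
    constructor
    · rintro ⟨a, ha, ⟨b, hb, h⟩, rfl⟩
      have h' : b = a := congrArg Subtype.val h
      exact h' ▸ hb
    · intro hx
      exact ⟨x, hs hx, ⟨x, hx, rfl⟩, rfl⟩
  rw [h4]
  exact hz

theorem club_cld {α : Type} [LinearOrder α] [WellFoundedLT α] [IsRegularCardinalOrder α]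
    (hα : ℵ₀ < #α) (F : Finset α → Set α) (hF : ∀ s, (F s).Countable) :
    IsClub {β : α | ∀ s : Finset α, (s : Set α) ⊆ Iio β → F s ⊆ Iio β} := by
  classical
  have key : ∀ (d : Set α) (a : α), d.Nonempty → IsLUB d a → ∀ s : Finset α, (s : Set α) ⊆ Iio a →
      ∃ c ∈ d, (s : Set α) ⊆ Iio c := by
    intro d a hne ha s
    induction s using Finset.induction_on with
    | empty =>
      intro _
      obtain ⟨c, hc⟩ := hne
      exact ⟨c, hc, by simp⟩
    | insert x s hx ih =>
      intro hs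
      rw [Finset.coe_insert, insert_subset_iff] at hs
      obtain ⟨c, hc, h⟩ := ih hs.2
      obtain ⟨c', hc', h'⟩ := (lt_isLUB_iff ha).1 hs.1
      rcases le_total c c' with h2 | h2
      · refine ⟨c', hc', ?_⟩
        rw [Finset.coe_insert, insert_subset_iff]
        exact ⟨h', fun y hy => lt_of_lt_of_le (h hy) h2⟩
      · refine ⟨c, hc, ?_⟩
        rw [Finset.coe_insert, insert_subset_iff]
        exact ⟨lt_of_lt_of_le h' h2, h⟩
  constructor
  · intro d hd hne _ a ha s hs
    obtain ⟨c, hc, h⟩ := key d a hne ha s hs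
    exact (hd hc s h).trans (Iio_subset_Iio (ha.1 hc))
  · intro x
    choose st hst1 hst2 using cl_step hα F hF
    let f : ℕ → α := fun n => st^[n] x
    have hf : ∀ n, f (n + 1) = st (f n) := fun n => Function.iterate_succ_apply' st n x
    obtain ⟨u, hu⟩ := bdd_of_card (s := range f) (lt_of_le_of_lt (by
      rw [Cardinal.mk_le_aleph0_iff]
      exact (countable_range f).to_subtype) hα)
    obtain ⟨y, hy⟩ := exists_lub (s := range f) ⟨u, fun z hz => (hu z hz).le⟩
    refine ⟨y, ?_, hy.1 ⟨0, rfl⟩⟩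
    intro s hs
    obtain ⟨_, ⟨n, rfl⟩, hn⟩ := key (range f) y ⟨f 0, 0, rfl⟩ hy s hs
    refine (hst2 (f n) s hn).trans (Iio_subset_Iio ?_)
    rw [← hf]
    exact hy.1 ⟨n + 1, rfl⟩

theorem regular_toType {κ : Cardinal.{0}} (hκ : κ.IsRegular) :
    IsRegularCardinalOrder κ.ord.ToType := by
  constructor
  rw [Ordinal.type_toType, Ordinal.cof_toType, hκ.cof_ord]

end Pool.Agent.Lib_helper70.Lad



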