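import Pool.Agent.Lib_helper70.Lad.Defs

set_option autoImplicit false

namespace Pool.Agent.Lib_helper70.Lad

open Set Cardinal Topology Filter Order
open Pool.Agent.Lib_helper70.Cor Pool.Agent.Lib_helper89.Corson

theorem gd_of_countable {X : Type} [TopologicalSpace X] (hF : Fr X) {A W : Set (X ⊕ C(X, ℝ))}
    (h : ∀ c ⊆ A, c.Countable → ∃ B, c ⊆ B ∧ B ⊆ A ∧ Gd B W) : Gd A W := by
  intro x hx y hy hxy
  obtain ⟨a, ha, hax⟩ := hF (pts A) x hx
  obtain ⟨b, hb, hby⟩ := hF (pts A) y hy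
  obtain ⟨B, hcB, hBA, hB⟩ := h (Sum.inl '' (range a ∪ range b)) (by
      rintro _ ⟨z, hz, rfl⟩
      rcases hz with ⟨n, rfl⟩ | ⟨n, rfl⟩
      · exact ha n
      · exact hb n) (((countable_range a).union (countable_range b)).image _)
  refine hB x ?_ y ?_ fun f hf => hxy f (hBA hf)
  · exact mem_closure_of_tendsto hax (Eventually.of_forall fun n =>
      hcB ⟨a n, Or.inl ⟨n, rfl⟩, rfl⟩)
  · exact mem_closure_of_tendsto hby (Eventually.of_forall fun n =>
      hcB ⟨b n, Or.inr ⟨n, rfl⟩, rfl⟩)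

theorem gd_of_cld {X : Type} [TopologicalSpace X] (hF : Fr X) {W : Set (X ⊕ C(X, ℝ))}
    {g : Finset (X ⊕ C(X, ℝ)) → Set (X ⊕ C(X, ℝ))} (hg : ∀ s, (g s).Countable)
    (h : ∀ N ⊆ W, N.Countable → Cld g N → Gd N W) {B : Set (X ⊕ C(X, ℝ))} (hB : B ⊆ W)
    (hcl : Cld g B) : Gd B W :=
  gd_of_countable hF fun c hc hcc => ⟨hull g c, subset_hull g c, hull_min hcl hc,
    h _ ((hull_min hcl hc).trans hB) (hull_countable hg hcc) (hull_cld g c)⟩

end Pool.Agent.Lib_helper70.Lad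



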