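import Pool.Agent.Lib_helper70.Lad.Defs
import Pool.Agent.Lib_helper70.Ladder.GD
import Pool.Agent.Lib_helper70.Ladder.CL

set_option autoImplicit false

namespace Pool.Agent.Lib_helper70.Lad

open Set Cardinal Topology Filter Order
open Pool.Agent.Lib_helper70.Cor Pool.Agent.Lib_helper89.Corson

theorem exists_closed_limit {α : Type} [LinearOrder α] [WellFoundedLT α]
    [IsRegularCardinalOrder α] (hα : ℵ₀ < #α) (h : α → α) :
    ∃ ξ : α, (Iio ξ).Nonempty ∧ (∀ η < ξ, ∃ ζ < ξ, η < ζ) ∧ ∀ η < ξ, h η < ξ := by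
  have hstep : ∀ y : α, ∃ z, y < z ∧ ∀ ξ < y, h ξ < z := by
    intro y
    have h1 : #((h '' Iio y) : Set α) < #α := (Cardinal.mk_image_le).trans_lt (mk_Iio_lt' y)
    obtain ⟨a, ha⟩ := bdd_of_card h1
    obtain ⟨b, hb⟩ := bdd_of_card (s := ({y} : Set α)) (by
      rw [Cardinal.mk_singleton]
      exact one_lt_aleph0.trans hα)
    refine ⟨max a b, lt_max_of_lt_right (hb y rfl), fun ξ hξ => lt_max_of_lt_left ?_⟩
    exact ha _ (mem_image_of_mem h hξ)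
  choose st hst1 hst2 using hstep
  have hne : Nonempty α := by
    rw [← mk_ne_zero_iff]
    exact (aleph0_pos.trans hα).ne'
  obtain ⟨x⟩ := hne
  let f : ℕ → α := fun n => st^[n] x
  have hf : ∀ n, f (n + 1) = st (f n) := fun n => Function.iterate_succ_apply' st n x
  obtain ⟨u, hu⟩ := bdd_of_card (s := range f) (lt_of_le_of_lt (by
    rw [Cardinal.mk_le_aleph0_iff]
    exact (countable_range f).to_subtype) hα)
  obtain ⟨y, hy⟩ := exists_lub (s := range f) ⟨u, fun z hz => (hu z hz).le⟩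
  have hlt : ∀ n, f n < y := fun n =>
    (hst1 (f n)).trans_le (by rw [← hf]; exact hy.1 ⟨n + 1, rfl⟩)
  refine ⟨y, ⟨f 0, hlt 0⟩, ?_, ?_⟩
  · intro η hη
    obtain ⟨_, ⟨n, rfl⟩, hn⟩ := (lt_isLUB_iff hy).1 hη
    exact ⟨f n, hlt n, hn⟩
  · intro ξ hξ
    obtain ⟨_, ⟨n, rfl⟩, hn⟩ := (lt_isLUB_iff hy).1 hξ
    refine (hst2 (f n) ξ hn).trans_le ?_
    rw [← hf]
    exact hy.1 ⟨n + 1, rfl⟩

/-- the stages -/
noncomputable def cgB {α Z : Type} [LinearOrder α] [WellFoundedLT α] (A : Set Z)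
    (Ph : Set Z → Set Z) : α → Set Z :=
  WellFounded.fix (wellFounded_lt (α := α)) fun ξ ih =>
    A ∪ ⋃ η : {η : α // η < ξ}, Ph (ih η.1 η.2)

theorem cgB_eq {α Z : Type} [LinearOrder α] [WellFoundedLT α] (A : Set Z)
    (Ph : Set Z → Set Z) (ξ : α) : cgB A Ph ξ =
    A ∪ ⋃ η : {η : α // η < ξ}, Ph (cgB A Ph η.1) := by
  unfold cgB
  rw [WellFounded.fix_eq]

/-- finite subsets of a directed union -/
theorem cg_fin {α Z : Type} [LinearOrder α] (P : α → Set Z) (hP : Monotone P) (J : Set α)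
    (hJ : J.Nonempty) (s : Finset Z) (hs : (s : Set Z) ⊆ ⋃ η ∈ J, P η) :
    ∃ η ∈ J, (s : Set Z) ⊆ P η := by
  classical
  induction s using Finset.induction_on with
  | empty =>
    obtain ⟨η, hη⟩ := hJ
    exact ⟨η, hη, by simp⟩
  | insert a s _ ih =>
    rw [Finset.coe_insert, insert_subset_iff] at hs
    obtain ⟨η, hη, h1⟩ := ih hs.2
    obtain ⟨ζ, hζ, h2⟩ := mem_iUnion₂.1 hs.1
    rcases le_total η ζ with h | h
    · refine ⟨ζ, hζ, ?_⟩
      rw [Finset.coe_insert, insert_subset_iff]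
      exact ⟨h2, h1.trans (hP h)⟩
    · refine ⟨η, hη, ?_⟩
      rw [Finset.coe_insert, insert_subset_iff]
      exact ⟨hP h h2, h1⟩

theorem cg_mk_finset {Z : Type} {B : Set Z} {c : Cardinal.{0}} (hc : ℵ₀ ≤ c) (hB : #B ≤ c) :
    #(Finset B) ≤ c := by
  classical
  have h2 : #(Finset B) ≤ #(List B) :=
    mk_le_of_surjective (f := List.toFinset) fun s => ⟨s.toList, Finset.toList_toFinset s⟩
  exact h2.trans ((mk_list_le_max _).trans (max_le hc hB))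

theorem cofinal_good {X : Type} [TopologicalSpace X] [CompactSpace X] (hF : Fr X)
    {W : Set (X ⊕ C(X, ℝ))} (hW : Cld g0 W) {μ : Cardinal.{0}} (hμ : ℵ₀ ≤ μ)
    (hns : ∀ A ⊆ W, Cld g0 A → #A ≤ Order.succ μ → NS A) {A : Set (X ⊕ C(X, ℝ))} (hA : A ⊆ W)
    (hAμ : #A ≤ μ) : ∃ B, A ⊆ B ∧ B ⊆ W ∧ Cld g0 B ∧ #B ≤ μ ∧ Gd B W := by
  classical
  by_contra hno
  push Not at hno
  -- the operation
  have hPh : ∀ B : Set (X ⊕ C(X, ℝ)), ∃ P : Set (X ⊕ C(X, ℝ)), B ⊆ W → #B ≤ μ →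
      B ⊆ P ∧ P ⊆ W ∧ #P ≤ μ ∧ Cld g0 P ∧ (A ⊆ B → Cld g0 B → ∃ f : C(X, ℝ), Sum.inr f ∈ P ∧
        ∃ x ∈ KK B, ∃ y ∈ KK B, (∀ h ∈ fns B, h x = h y) ∧ f x ≠ f y) := by
    intro B
    by_cases h : B ⊆ W ∧ #B ≤ μ
    swap
    · exact ⟨B, fun h1 h2 => absurd ⟨h1, h2⟩ h⟩
    by_cases h' : A ⊆ B ∧ Cld g0 B
    · have h1 := hno B h'.1 h.1 h'.2 h.2
      unfold Gd at h1
      push Not at h1
      obtain ⟨x, hx, y, hy, hxy, f, hf, hne⟩ := h1
      refine ⟨hull g0 (insert (Sum.inr f) B), fun _ _ => ⟨?_, ?_, ?_, hull_cld _ _, ?_⟩⟩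
      · exact (subset_insert _ _).trans (subset_hull _ _)
      · refine hull_min hW (insert_subset hf h.1)
      · refine mk_hull_le g0_countable hμ ?_
        refine (mk_insert_le).trans ?_
        exact (add_le_add h.2 (one_lt_aleph0.le.trans hμ)).trans (add_eq_self hμ).le
      · exact fun _ _ => ⟨f, subset_hull _ _ (mem_insert _ _), x, hx, y, hy, hxy, hne⟩
    · refine ⟨hull g0 B, fun _ _ => ⟨subset_hull _ _, hull_min hW h.1,
        mk_hull_le g0_countable hμ h.2, hull_cld _ _, fun h1 h2 => absurd ⟨h1, h2⟩ h'⟩⟩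
  choose Ph hPh using hPh
  -- the index set
  have hreg : (Order.succ μ).IsRegular := isRegular_succ hμ
  have : IsRegularCardinalOrder (Order.succ μ).ord.ToType := regular_toType hreg
  have hcα : #((Order.succ μ).ord.ToType) = Order.succ μ := by simp
  have hα : ℵ₀ < #((Order.succ μ).ord.ToType) := by
    rw [hcα]
    exact hμ.trans_lt (Order.lt_succ μ)
  set B : (Order.succ μ).ord.ToType → Set (X ⊕ C(X, ℝ)) := cgB A Ph with hB
  have hBeq : ∀ ξ, B ξ = A ∪ ⋃ η : {η // η < ξ}, Ph (B η.1) := fun ξ => cgB_eq A Ph ξ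
  have hIio : ∀ ξ : (Order.succ μ).ord.ToType, #{η // η < ξ} ≤ μ := by
    intro ξ
    have h1 := mk_Iio_lt' ξ
    rw [hcα] at h1
    exact Order.lt_succ_iff.1 h1
  have hBp : ∀ ξ, B ξ ⊆ W ∧ #(B ξ) ≤ μ := by
    intro ξ
    induction ξ using WellFoundedLT.induction with
    | ind ξ ih =>
      rw [hBeq ξ]
      constructor
      · exact union_subset hA (iUnion_subset fun η => (hPh _ (ih η.1 η.2).1 (ih η.1 η.2).2).2.1)
      · refine (mk_union_le _ _).trans ((add_le_add hAμ ?_).trans (add_eq_self hμ).le)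
        refine (mk_iUnion_le _).trans ((mul_le_mul' (hIio ξ) ?_).trans (mul_eq_self hμ).le)
        exact ciSup_le' fun η => (hPh _ (ih η.1 η.2).1 (ih η.1 η.2).2).2.2.1
  have hPB : ∀ ξ, B ξ ⊆ Ph (B ξ) ∧ Ph (B ξ) ⊆ W ∧ #(Ph (B ξ)) ≤ μ ∧ Cld g0 (Ph (B ξ)) ∧
      (Cld g0 (B ξ) → ∃ f : C(X, ℝ), Sum.inr f ∈ Ph (B ξ) ∧
        ∃ x ∈ KK (B ξ), ∃ y ∈ KK (B ξ), (∀ h ∈ fns (B ξ), h x = h y) ∧ f x ≠ f y) := by
    intro ξ
    have h1 := hPh _ (hBp ξ).1 (hBp ξ).2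
    refine ⟨h1.1, h1.2.1, h1.2.2.1, h1.2.2.2.1, h1.2.2.2.2 ?_⟩
    rw [hBeq ξ]
    exact subset_union_left
  have hmono : Monotone fun ξ => Ph (B ξ) := by
    intro η ξ h
    rcases lt_or_eq_of_le h with h | h
    · have h1 : Ph (B η) ⊆ B ξ := by
        rw [hBeq ξ]
        intro z hz
        exact Or.inr (mem_iUnion.2 ⟨⟨η, h⟩, hz⟩)
      exact h1.trans (hPB ξ).1
    · rw [h]
  set S : Set (X ⊕ C(X, ℝ)) := ⋃ ξ, Ph (B ξ) with hS
  have hSW : S ⊆ W := iUnion_subset fun ξ => (hPB ξ).2.1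
  have hne : Nonempty (Order.succ μ).ord.ToType := by
    rw [← mk_ne_zero_iff]
    exact (aleph0_pos.trans hα).ne'
  have hS' : S = ⋃ ξ ∈ (univ : Set (Order.succ μ).ord.ToType), Ph (B ξ) := by simp [hS]
  have hScl : Cld g0 S := by
    intro s hs
    rw [hS'] at hs
    obtain ⟨η, _, h1⟩ := cg_fin (fun ξ => Ph (B ξ)) hmono univ univ_nonempty s hs
    exact ((hPB η).2.2.2.1 s h1).trans (subset_iUnion (fun ξ => Ph (B ξ)) η)
  have hSc : #S ≤ Order.succ μ := by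
    refine (mk_iUnion_le _).trans ((mul_le_mul' hcα.le ?_).trans
      (mul_eq_self (hμ.trans (Order.le_succ μ))).le)
    exact ciSup_le' fun ξ => (hPB ξ).2.2.1.trans (Order.le_succ μ)
  obtain ⟨g, hg1, hg2, hg3⟩ := hns S hSW hScl hSc
  -- the bound of the ranks
  have hr : ∀ z, ∃ ξ, z ∈ S → z ∈ Ph (B ξ) := by
    intro z
    by_cases hz : z ∈ S
    · obtain ⟨ξ, hξ⟩ := mem_iUnion.1 hz
      exact ⟨ξ, fun _ => hξ⟩
    · exact ⟨Classical.arbitrary _, fun h => absurd h hz⟩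
  choose r hr using hr
  have hh : ∀ η, ∃ ζ, ∀ s : Finset (X ⊕ C(X, ℝ)), (s : Set (X ⊕ C(X, ℝ))) ⊆ Ph (B η) →
      ∀ z ∈ g s, r z < ζ := by
    intro η
    set R : Set (X ⊕ C(X, ℝ)) := ⋃ t : Finset (Ph (B η)), g (t.map (Function.Embedding.subtype _))
      with hR
    have h1 : #R ≤ μ := by
      refine (mk_iUnion_le _).trans ((mul_le_mul' (cg_mk_finset hμ (hPB η).2.2.1) ?_).trans
        (mul_eq_self hμ).le)
      exact ciSup_le' fun t => (hg1 _).le_aleph0.trans hμ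
    have h2 : #(r '' R : Set _) < #((Order.succ μ).ord.ToType) := by
      refine mk_image_le.trans_lt (h1.trans_lt ?_)
      rw [hcα]
      exact Order.lt_succ μ
    obtain ⟨ζ, hζ⟩ := bdd_of_card h2
    refine ⟨ζ, fun s hs z hz => hζ _ ⟨z, ?_, rfl⟩⟩
    set t : Finset (Ph (B η)) := s.attach.map
      ⟨fun x => ⟨x.1, hs x.2⟩, fun x y h => Subtype.ext (by simpa using h)⟩ with ht
    have h3 : t.map (Function.Embedding.subtype _) = s := by
      ext x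
      simp only [ht, Finset.mem_map, Finset.mem_attach, true_and,
        Subtype.exists, Function.Embedding.subtype_apply]
      constructor
      · rintro ⟨a, ha, ⟨b, hb, h⟩, rfl⟩
        have h' : b = a := congrArg Subtype.val h
        exact h' ▸ hb
      · intro hx
        exact ⟨x, hs hx, ⟨x, hx, rfl⟩, rfl⟩
    refine mem_iUnion.2 ⟨t, ?_⟩
    rw [h3]
    exact hz
  choose h hh using hh
  obtain ⟨ξ, hξ1, hξ2, hξ3⟩ := exists_closed_limit hα h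
  -- the limit stage
  have hBlim : B ξ = ⋃ η ∈ Iio ξ, Ph (B η) := by
    rw [hBeq ξ]
    ext z
    simp only [mem_union, mem_iUnion, mem_Iio]
    constructor
    · rintro (hz | ⟨η, hz⟩)
      · obtain ⟨η, hη⟩ := hξ1
        refine ⟨η, hη, (hPB η).1 ?_⟩
        rw [hBeq η]
        exact Or.inl hz
      · exact ⟨η.1, η.2, hz⟩
    · rintro ⟨η, hη, hz⟩
      exact Or.inr ⟨⟨η, hη⟩, hz⟩
  have hcl0 : Cld g0 (B ξ) := by
    intro s hs
    rw [hBlim] at hs ⊢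
    obtain ⟨η, hη, h1⟩ := cg_fin (fun ξ => Ph (B ξ)) hmono (Iio ξ) hξ1 s hs
    exact ((hPB η).2.2.2.1 s h1).trans (subset_iUnion₂ (s := fun η _ => Ph (B η)) η hη)
  have hclg : Cld g (B ξ) := by
    intro s hs z hz
    rw [hBlim] at hs ⊢
    obtain ⟨η, hη, h1⟩ := cg_fin (fun ξ => Ph (B ξ)) hmono (Iio ξ) hξ1 s hs
    have h2 := hh η s h1 z hz
    have h3 : z ∈ S := hg2 s (h1.trans (subset_iUnion (fun ξ => Ph (B ξ)) η)) hz
    exact mem_iUnion₂.2 ⟨r z, h2.trans (hξ3 η hη), hr z h3⟩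
  have hBS : B ξ ⊆ S := (hPB ξ).1.trans (subset_iUnion (fun ξ => Ph (B ξ)) ξ)
  have hgd : Gd (B ξ) S := gd_of_cld hF hg1 hg3 hBS hclg
  obtain ⟨f, hf, x, hx, y, hy, hxy, hne'⟩ := (hPB ξ).2.2.2.2 hcl0
  exact hne' (hgd x hx y hy hxy f (subset_iUnion (fun ξ => Ph (B ξ)) ξ hf))



end Pool.Agent.Lib_helper70.Lad
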