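import Pool.Agent.Lib_helper70.Lad.Defs

/-!
# The chain lemma
-/

set_option autoImplicit false

namespace Pool.Agent.Lib_helper70.Lad

open Set Cardinal Topology Filter Order
open Pool.Agent.Lib_helper70.Cor Pool.Agent.Lib_helper89.Corson

theorem ch_ret {X : Type} [TopologicalSpace X] [CompactSpace X] (hF : Fr X)
    {A : Set (X ⊕ C(X, ℝ))} (h0 : Cld g0 A) (u : X) :
    ∃ σ : Set X, σ.Countable ∧ σ ⊆ pts A ∧ ∃ u' ∈ closure σ, ∀ h ∈ fns A, h u' = h u := by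
  obtain ⟨u', hu', h⟩ := exists_ret (g := fun _ => ∅) h0 u
  obtain ⟨a, ha, hau⟩ := hF _ _ hu'
  refine ⟨range a, countable_range a, ?_, u', ?_, h⟩
  · rintro _ ⟨n, rfl⟩
    exact ha n
  · exact mem_closure_of_tendsto hau (Eventually.of_forall fun n => mem_range_self n)

theorem ch_near {X : Type} [TopologicalSpace X] {A : Set X} {x : X} (hx : x ∈ closure A)
    (s : Finset C(X, ℝ)) {ε : ℝ} (hε : 0 < ε) : ∃ a ∈ A, ∀ f ∈ s, |f a - f x| < ε := by
  have hO : IsOpen (⋂ f ∈ s, {y : X | |f y - f x| < ε}) :=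
    isOpen_biInter_finset fun f _ =>
      isOpen_lt ((f.continuous.sub continuous_const).abs) continuous_const
  obtain ⟨a, ha, ha'⟩ := mem_closure_iff.1 hx _ hO (by
    simp only [mem_iInter, mem_ofPred_eq]
    intro f _
    simpa using hε)
  exact ⟨a, ha', fun f hf => mem_iInter₂.1 ha f hf⟩

theorem ns_chain {X : Type} [TopologicalSpace X] [CompactSpace X] (hF : Fr X)
    {W : Set (X ⊕ C(X, ℝ))} {ι : Type} (A : ι → Set (X ⊕ C(X, ℝ))) (hAW : ∀ i, A i ⊆ W)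
    (ρ : X ⊕ C(X, ℝ) → ι) (hρ : ∀ z ∈ W, z ∈ A (ρ z)) (h0 : ∀ i, Cld g0 (A i))
    (hns : ∀ i, NS (A i))
    (hU : ∀ c : Set ι, c.Countable → c.Nonempty → Gd (⋃ i ∈ c, A i) W) : NS W := by
  classical
  choose g hg hgA hgN using hns
  choose σ hσc hσA u' hu' hhu using fun (i : ι) (u : X) => ch_ret hF (h0 i) u
  let G : Finset (X ⊕ C(X, ℝ)) → Set (X ⊕ C(X, ℝ)) := fun s =>
    ⋃ z ∈ (s : Set (X ⊕ C(X, ℝ))), ((⋃ t ∈ (s.powerset : Set (Finset (X ⊕ C(X, ℝ)))),
      g (ρ z) t ∩ A (ρ z)) ∪ ⋃ u ∈ (s.preimage Sum.inl Sum.inl_injective.injOn : Set X),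
        Sum.inl '' σ (ρ z) u)
  refine ⟨G, fun s => ?_, ?_, ?_⟩
  · refine s.countable_toSet.biUnion fun z _ => Countable.union ?_ ?_
    · exact (Finset.countable_toSet _).biUnion fun t _ => (hg _ t).mono inter_subset_left
    · exact (Finset.countable_toSet _).biUnion fun u _ => (hσc _ u).image _
  · intro s _ w hw
    obtain ⟨z, _, hw⟩ := mem_iUnion₂.1 hw
    rcases hw with hw | hw
    · obtain ⟨t, _, hw⟩ := mem_iUnion₂.1 hw
      exact hAW _ hw.2
    · obtain ⟨u, _, v, hv, rfl⟩ := mem_iUnion₂.1 hw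
      exact hAW _ (hσA _ _ hv)
  · intro N hNW hNc hNcl x hx y hy hxy
    have hNne : N.Nonempty := by
      obtain ⟨a, ha⟩ : (pts N).Nonempty := closure_nonempty_iff.1 ⟨x, hx⟩
      exact ⟨_, ha⟩
    have hNU : N ⊆ ⋃ i ∈ ρ '' N, A i := fun z hz => mem_iUnion₂.2 ⟨ρ z, ⟨z, hz, rfl⟩, hρ z (hNW hz)⟩
    refine hU (ρ '' N) (hNc.image ρ) (hNne.image ρ) x (KK_mono hNU hx) y (KK_mono hNU hy) ?_
    intro f hf
    obtain ⟨_, ⟨z, hz, rfl⟩, hfA⟩ := mem_iUnion₂.1 (show Sum.inr f ∈ ⋃ i ∈ ρ '' N, A i from hf)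
    set i := ρ z with hi
    have hcl : Cld (g i) (N ∩ A i) := by
      intro t ht w hw
      have hwA : w ∈ A i := hgA i t (ht.trans inter_subset_right) hw
      refine ⟨hNcl (insert z t) ?_ ?_, hwA⟩
      · rw [Finset.coe_insert]
        exact insert_subset hz (ht.trans inter_subset_left)
      · refine mem_iUnion₂.2 ⟨z, by simp, Or.inl ?_⟩
        refine mem_iUnion₂.2 ⟨t, ?_, hw, hwA⟩
        simp
    have hGd := hgN i (N ∩ A i) inter_subset_right (hNc.mono inter_subset_left) hcl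
    have hσN : ∀ u ∈ pts N, σ i u ⊆ pts (N ∩ A i) := by
      intro u hu v hv
      refine ⟨hNcl {z, Sum.inl u} ?_ ?_, hσA i u hv⟩
      · rw [Finset.coe_insert, Finset.coe_singleton]
        exact insert_subset hz (singleton_subset_iff.2 hu)
      · refine mem_iUnion₂.2 ⟨z, by simp, Or.inr ?_⟩
        exact mem_iUnion₂.2 ⟨u, by simp, v, hv, rfl⟩
    have key : ∀ v ∈ KK N, ∃ v' ∈ KK (N ∩ A i), ∀ h ∈ fns (A i), h v' = h v := by
      intro v hv
      refine exists_cluster fun s hs n => ?_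
      have hε : (0 : ℝ) < 1 / ((n : ℝ) + 1) / 2 := by positivity
      obtain ⟨a, ha, ha'⟩ := ch_near hv s hε
      obtain ⟨b, hb, hb'⟩ := ch_near (hu' i a) s hε
      refine ⟨b, hσN a ha hb, fun h hh => ?_⟩
      have h1 := hb' h hh
      have h2 := ha' h hh
      rw [hhu i a h (hs hh)] at h1
      calc |h b - h v| = |(h b - h a) + (h a - h v)| := by ring_nf
        _ ≤ |h b - h a| + |h a - h v| := abs_add_le _ _
        _ < 1 / ((n : ℝ) + 1) := by linarith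
    obtain ⟨x', hx', hhx⟩ := key x hx
    obtain ⟨y', hy', hhy⟩ := key y hy
    rw [← hhx f hfA, ← hhy f hfA]
    refine hGd x' hx' y' hy' ?_ f hfA
    intro h hh
    rw [hhx h hh.2, hhy h hh.2]
    exact hxy h hh.1


end Pool.Agent.Lib_helper70.Lad
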