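import Pool.Agent.Lib_helper70.Lad.Defs

/-!
# Block CV: closures of small subsets of the ladder system compactum
-/

set_option autoImplicit false

namespace Pool.Agent.Lib_helper70.Lad

open Set Cardinal Topology Filter Order
open Pool.Agent.Lib_helper70.Cor Pool.Agent.Lib_helper89.Corson

open scoped Classical in
/-- The coordinates of the embedding. -/
noncomputable def cvH {α : Type} [LinearOrder α] (D : Data α) (g : α → α) (J : Set α) (x : D.X) :
    α ⊕ D.S → ℝ
  | Sum.inl η => if D.e x (Sum.inl η) = true then 1 else 0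
  | Sum.inr δ => if (δ : α) ∈ J ∧ (D.e x (Sum.inr δ) = true ∧
      ∀ ξ ∈ range (D.L δ) ∩ Iic (g δ), D.e x (Sum.inl ξ) = false) then 1 else 0

variable {α : Type} [LinearOrder α]

theorem cv_cont (D : Data α) {g : α → α} {J : Set α}
    (hg : ∀ δ ∈ J, g δ < δ) : Continuous (cvH D g J) := by
  classical
  refine continuous_pi fun i => ?_
  rcases i with η | δ
  · have := continuous_ite_clopen (isClopen_e D (Sum.inl η))
    exact this
  · by_cases hδ : (δ : α) ∈ J
    · have h1 : {x : D.X | (δ : α) ∈ J ∧ (D.e x (Sum.inr δ) = true ∧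
          ∀ ξ ∈ range (D.L δ) ∩ Iic (g δ), D.e x (Sum.inl ξ) = false)} =
          {x : D.X | D.e x (Sum.inr δ) = true ∧
            ∀ ξ ∈ range (D.L δ) ∩ Iic (g δ), D.e x (Sum.inl ξ) = false} := by
        ext x
        simp only [Set.mem_ofPred_eq, hδ, true_and]
      have h2 : IsClopen {x : D.X | (δ : α) ∈ J ∧ (D.e x (Sum.inr δ) = true ∧
          ∀ ξ ∈ range (D.L δ) ∩ Iic (g δ), D.e x (Sum.inl ξ) = false)} := by
        rw [h1]
        exact isClopen_tail D δ (hg δ hδ)
      have := continuous_ite_clopen h2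
      exact this
    · have : (fun x => cvH D g J x (Sum.inr δ)) = fun _ => 0 := by
        funext x
        simp only [cvH]
        rw [if_neg]
        exact fun h => hδ h.1
      rw [this]
      exact continuous_const

theorem cv_iso_inl (D : Data α) (g : α → α) (J : Set α) (ξ η : α) :
    cvH D g J (D.iso ξ) (Sum.inl η) ≠ 0 ↔ η = ξ := by
  classical
  simp only [cvH, e_iso_inl]
  split_ifs with h <;> simp [h]

theorem cv_lim_inl (D : Data α) (g : α → α) (J : Set α) (η : α) (δ : D.S) :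
    cvH D g J (D.lim δ) (Sum.inl η) = 0 := by
  classical
  simp [cvH]

theorem cv_inf (D : Data α) (g : α → α) (J : Set α) (i : α ⊕ D.S) :
    cvH D g J D.inf i = 0 := by
  classical
  rcases i with η | δ <;> simp [cvH]

theorem cv_lim_inr (D : Data α) (g : α → α) (J : Set α) (δ γ : D.S) :
    cvH D g J (D.lim δ) (Sum.inr γ) ≠ 0 ↔ (γ : α) ∈ J ∧ γ = δ := by
  classical
  simp only [cvH, e_lim_inr, e_lim_inl]
  split_ifs with h
  · simp only [ne_eq, one_ne_zero, not_false_eq_true, true_iff]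
    exact ⟨h.1, h.2.1⟩
  · simp only [ne_eq, not_true_eq_false, false_iff]
    intro h2
    exact h ⟨h2.1, h2.2, fun _ _ => trivial⟩

theorem cv_iso_inr (D : Data α) (g : α → α) (J : Set α) (ξ : α) (δ : D.S) :
    cvH D g J (D.iso ξ) (Sum.inr δ) ≠ 0 ↔ (δ : α) ∈ J ∧ ξ ∈ range (D.L δ) ∧ g δ < ξ := by
  classical
  simp only [cvH, e_iso_inr]
  split_ifs with h
  · simp only [ne_eq, one_ne_zero, not_false_eq_true, true_iff]
    refine ⟨h.1, h.2.1, ?_⟩
    by_contra hcon
    have h2 := h.2.2 ξ ⟨h.2.1, not_lt.1 hcon⟩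
    rw [(e_iso_inl D ξ ξ).2 rfl] at h2
    simp at h2
  · simp only [ne_eq, not_true_eq_false, false_iff]
    rintro ⟨h1, h2, h3⟩
    refine h ⟨h1, h2, fun η hη => ?_⟩
    by_contra hcon
    rw [Bool.not_eq_false, e_iso_inl] at hcon
    rw [hcon] at hη
    exact absurd hη.2 (not_le.2 h3)

theorem cv_values (D : Data α) (g : α → α) (J : Set α) (x : D.X) (i : α ⊕ D.S) :
    cvH D g J x i = 0 ∨ cvH D g J x i = 1 := by
  classical
  rcases i with η | δ
  · simp only [cvH]
    split_ifs <;> simp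
  · simp only [cvH]
    split_ifs <;> simp

theorem cv_support (D : Data α) {g : α → α} {J : Set α}
    (hg : ∀ δ ∈ J, ∀ δ' ∈ J, δ < δ' →
      ∀ ξ ∈ range (D.L δ), ξ ∈ range (D.L δ') → g δ < ξ → g δ' < ξ → False) (x : D.X) :
    (Function.support (cvH D g J x)).encard ≤ 2 := by
  classical
  rcases Data.cases x with rfl | ⟨ξ, rfl⟩ | ⟨δ, rfl⟩
  · have : Function.support (cvH D g J D.inf) = ∅ := by
      ext i
      simp [cv_inf]
    rw [this]
    simp
  · by_cases hex : ∃ δ : D.S, cvH D g J (D.iso ξ) (Sum.inr δ) ≠ 0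
    · obtain ⟨δ, hδ⟩ := hex
      refine le_trans (Set.encard_le_encard (t := {Sum.inl ξ, Sum.inr δ}) ?_) (by
        refine (Set.encard_insert_le _ _).trans ?_
        rw [Set.encard_singleton]
        norm_num)
      rintro (η | γ) hi
      · left
        rw [(cv_iso_inl D g J ξ η).1 hi]
      · right
        rw [mem_singleton_iff]
        have h1 := (cv_iso_inr D g J ξ γ).1 hi
        have h2 := (cv_iso_inr D g J ξ δ).1 hδ
        by_contra hne
        have hne' : (γ : α) ≠ δ := fun h => hne (by rw [Subtype.ext h])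
        rcases lt_or_gt_of_ne hne' with h | h
        · exact hg γ h1.1 δ h2.1 h ξ h1.2.1 h2.2.1 h1.2.2 h2.2.2
        · exact hg δ h2.1 γ h1.1 h ξ h2.2.1 h1.2.1 h2.2.2 h1.2.2
    · push Not at hex
      refine le_trans (Set.encard_le_encard (t := {Sum.inl ξ}) ?_) ?_
      · rintro (η | γ) hi
        · rw [(cv_iso_inl D g J ξ η).1 hi]
          rfl
        · exact absurd (hex γ) hi
      · rw [Set.encard_singleton]
        norm_num
  · refine le_trans (Set.encard_le_encard (t := {Sum.inr δ}) ?_) ?_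
    · rintro (η | γ) hi
      · exact absurd (cv_lim_inl D g J η δ) hi
      · rw [((cv_lim_inr D g J δ γ).1 hi).2]
        rfl
    · rw [Set.encard_singleton]
      norm_num

/-- the isolated points of `A` on the ladder of `δ` -/
def cvF (D : Data α) (A : Set D.X) (δ : D.S) : Set α := {ξ | ξ ∈ range (D.L δ) ∧ D.iso ξ ∈ A}

theorem cv_closure (D : Data α) {A : Set D.X} {δ : D.S} (h : D.lim δ ∈ closure A) :
    D.lim δ ∈ A ∨ (cvF D A δ).Infinite := by
  by_contra hcon
  rw [not_or, Set.not_infinite] at hcon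
  obtain ⟨h1, h2⟩ := hcon
  have hcl : IsClopen ({x | D.e x (Sum.inr δ) = true} ∩
      ⋂ ξ ∈ cvF D A δ, {x : D.X | D.e x (Sum.inl ξ) = true}ᶜ) :=
    (isClopen_e D _).inter (h2.isClopen_biInter fun ξ _ => (isClopen_e D _).compl)
  have hmem : D.lim δ ∈ ({x | D.e x (Sum.inr δ) = true} ∩
      ⋂ ξ ∈ cvF D A δ, {x : D.X | D.e x (Sum.inl ξ) = true}ᶜ) := by
    refine ⟨(e_lim_inr D δ δ).2 rfl, ?_⟩
    simp only [mem_iInter, mem_compl_iff, Set.mem_ofPred_eq]
    intro ξ _
    simp
  obtain ⟨x, ⟨hx1, hx2⟩, hxA⟩ := mem_closure_iff.1 h _ hcl.2 hmem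
  simp only [mem_iInter, mem_compl_iff, Set.mem_ofPred_eq] at hx1 hx2
  rcases Data.cases x with rfl | ⟨η, rfl⟩ | ⟨γ, rfl⟩
  · simp at hx1
  · have h3 : η ∈ range (D.L δ) := (e_iso_inr D η δ).1 hx1
    exact hx2 η ⟨h3, hxA⟩ ((e_iso_inl D η η).2 rfl)
  · have h3 : δ = γ := (e_lim_inr D γ δ).1 hx1
    exact h1 (h3 ▸ hxA)

theorem cv_card (D : Data α) {A : Set D.X} (hA : #A ≤ 𝔠) :
    #(Subtype.val '' {δ : D.S | D.lim δ ∈ closure A} : Set α) ≤ 𝔠 := by
  classical
  have hsub : (Subtype.val '' {δ : D.S | D.lim δ ∈ closure A} : Set α) ⊆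
      Subtype.val '' {δ : D.S | D.lim δ ∈ A} ∪ Subtype.val '' {δ : D.S | (cvF D A δ).Infinite} := by
    rintro _ ⟨δ, hδ, rfl⟩
    rcases cv_closure D hδ with h | h
    · exact Or.inl ⟨δ, h, rfl⟩
    · exact Or.inr ⟨δ, h, rfl⟩
  refine (mk_le_mk_of_subset hsub).trans ((mk_union_le _ _).trans ?_)
  refine (add_le_add ?_ ?_).trans (add_eq_self aleph0_le_continuum).le
  · refine mk_image_le.trans (le_trans ?_ hA)
    refine mk_le_of_injective (f := fun δ : {δ : D.S | D.lim δ ∈ A} => (⟨D.lim δ.1, δ.2⟩ : A)) ?_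
    intro δ γ h
    have h1 : D.lim δ.1 = D.lim γ.1 := congrArg Subtype.val h
    have h2 : D.e (D.lim γ.1) (Sum.inr δ.1) = true := by
      rw [← h1]
      exact (e_lim_inr D _ _).2 rfl
    exact Subtype.ext ((e_lim_inr D _ _).1 h2)
  · refine mk_image_le.trans ?_
    have hA' : #({ξ : α | D.iso ξ ∈ A}) ≤ 𝔠 := by
      refine le_trans ?_ hA
      refine mk_le_of_injective (f := fun ξ : {ξ : α | D.iso ξ ∈ A} => (⟨D.iso ξ.1, ξ.2⟩ : A)) ?_
      intro ξ η h
      have h1 : D.iso ξ.1 = D.iso η.1 := congrArg Subtype.val h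
      have h2 : D.e (D.iso η.1) (Sum.inl ξ.1) = true := by
        rw [← h1]
        exact (e_iso_inl D _ _).2 rfl
      exact Subtype.ext ((e_iso_inl D _ _).1 h2)
    have hex : ∀ δ : {δ : D.S | (cvF D A δ).Infinite},
        ∃ f : ℕ → {ξ : α | D.iso ξ ∈ A}, range (fun n => (f n : α)) = cvF D A δ.1 := by
      intro δ
      have hc : (cvF D A δ.1).Countable := (countable_range (D.L δ.1)).mono fun ξ h => h.1
      obtain ⟨f, hf⟩ := hc.exists_eq_range (Set.Infinite.nonempty δ.2)
      have hf' : ∀ n, D.iso (f n) ∈ A := by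
        intro n
        have h1 : f n ∈ cvF D A δ.1 := by
          rw [hf]
          exact mem_range_self n
        exact h1.2
      exact ⟨fun n => ⟨f n, hf' n⟩, hf.symm⟩
    choose f hf using hex
    have hinj : Function.Injective f := by
      intro δ γ h
      by_contra hne
      have hne' : (δ.1 : α) ≠ γ.1 := fun h' => hne (Subtype.ext (Subtype.ext h'))
      have h1 : cvF D A δ.1 = cvF D A γ.1 := by
        rw [← hf δ, ← hf γ, h]
      refine δ.2 ((inter_finite D δ.1.2 γ.1.2 hne').subset ?_)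
      intro ξ hξ
      refine ⟨hξ.1, ?_⟩
      rw [h1] at hξ
      exact hξ.1
    refine (mk_le_of_injective hinj).trans ?_
    rw [← Cardinal.power_def, Cardinal.mk_nat]
    exact (Cardinal.power_le_power_right hA').trans continuum_power_aleph0.le

theorem twoSupp_small {α : Type} [LinearOrder α] (D : Data α)
    (hfree : ∀ J ⊆ D.S, #J ≤ 𝔠 → Free D.L J) (A : Set D.X) (hA : #A ≤ 𝔠) :
    TwoSupp (closure A) := by
  classical
  obtain ⟨J, hJdef⟩ : ∃ J : Set α, J = Subtype.val '' {δ : D.S | D.lim δ ∈ closure A} := ⟨_, rfl⟩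
  have hJS : J ⊆ D.S := by
    rw [hJdef]
    rintro _ ⟨δ, _, rfl⟩
    exact δ.2
  have hJc : #J ≤ 𝔠 := by
    rw [hJdef]
    exact cv_card D hA
  have hlim : ∀ δ : D.S, D.lim δ ∈ closure A → (δ : α) ∈ J := by
    intro δ hδ
    rw [hJdef]
    exact ⟨δ, hδ, rfl⟩
  obtain ⟨g, hg1, hg2⟩ := hfree J hJS hJc
  have hcont : Continuous fun x : closure A => cvH D g J x :=
    (cv_cont D hg1).comp continuous_subtype_val
  have hinj : Function.Injective fun x : closure A => cvH D g J x := by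
    rintro ⟨x, hx⟩ ⟨y, hy⟩ hxy
    have hxy' : ∀ i, cvH D g J x i = cvH D g J y i := fun i => congrFun hxy i
    refine Subtype.ext ?_
    show x = y
    rcases Data.cases x with rfl | ⟨ξ, rfl⟩ | ⟨δ, rfl⟩ <;>
      rcases Data.cases y with rfl | ⟨η, rfl⟩ | ⟨γ, rfl⟩
    · rfl
    · have h1 := (cv_iso_inl D g J η η).2 rfl
      rw [← hxy', cv_inf] at h1
      exact absurd rfl h1
    · have h1 := (cv_lim_inr D g J γ γ).2 ⟨hlim γ hy, rfl⟩
      rw [← hxy', cv_inf] at h1
      exact absurd rfl h1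
    · have h1 := (cv_iso_inl D g J ξ ξ).2 rfl
      rw [hxy', cv_inf] at h1
      exact absurd rfl h1
    · have h1 := (cv_iso_inl D g J ξ ξ).2 rfl
      rw [hxy'] at h1
      rw [(cv_iso_inl D g J η ξ).1 h1]
    · have h1 := (cv_iso_inl D g J ξ ξ).2 rfl
      rw [hxy', cv_lim_inl] at h1
      exact absurd rfl h1
    · have h1 := (cv_lim_inr D g J δ δ).2 ⟨hlim δ hx, rfl⟩
      rw [hxy', cv_inf] at h1
      exact absurd rfl h1
    · have h1 := (cv_iso_inl D g J η η).2 rfl
      rw [← hxy', cv_lim_inl] at h1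
      exact absurd rfl h1
    · have h1 := (cv_lim_inr D g J δ δ).2 ⟨hlim δ hx, rfl⟩
      rw [hxy'] at h1
      rw [((cv_lim_inr D g J γ δ).1 h1).2]
  have hcomp : CompactSpace (closure A) := isCompact_iff_compactSpace.1 isClosed_closure.isCompact
  exact ⟨α ⊕ D.S, fun x => cvH D g J x, (hcont.isClosedEmbedding hinj).isEmbedding,
    fun y => ⟨fun γ => cv_values D g J y γ, cv_support D hg2 y⟩⟩


end Pool.Agent.Lib_helper70.Lad
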