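import Pool.Agent.Lib_helper70.Lad.Defs

/-! LAD, block F1 (helper90) -/

set_option autoImplicit false

namespace Pool.Agent.Lib_helper70.Lad

open Set Cardinal Topology Filter Order
open Pool.Agent.Lib_helper70.Cor Pool.Agent.Lib_helper89.Corson

theorem f1_bound {α : Type} [LinearOrder α] {A : Set α} (hA : A.Finite) {δ x₀ : α} (hx₀ : x₀ < δ)
    (h : ∀ ξ ∈ A, ξ < δ) : ∃ b < δ, ∀ ξ ∈ A, ξ ≤ b := by
  rcases A.eq_empty_or_nonempty with he | hne
  · refine ⟨x₀, hx₀, fun ξ hξ => ?_⟩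
    rw [he] at hξ
    exact hξ.elim
  · obtain ⟨b, hb, hb'⟩ := hA.exists_maximal hne
    refine ⟨b, h b hb, fun ξ hξ => ?_⟩
    rcases le_total ξ b with h1 | h1
    · exact h1
    · exact hb' hξ h1

theorem f1_inter {α : Type} [LinearOrder α] [WellFoundedLT α] {S : Set α} {L : α → ℕ → α}
    (hL : IsLadder S L) {δ δ' : α} (hδ : δ ∈ S) (hδ' : δ' ∈ S) (hne : δ ≠ δ') :
    (range (L δ) ∩ range (L δ')).Finite := by
  rcases lt_or_gt_of_ne hne with h | h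
  · refine (ladder_finite hL hδ' h).subset ?_
    rintro ξ ⟨⟨n, rfl⟩, h2⟩
    exact ⟨h2, ((hL δ hδ).2.1 n).le⟩
  · refine (ladder_finite hL hδ h).subset ?_
    rintro ξ ⟨h2, ⟨n, rfl⟩⟩
    exact ⟨h2, ((hL δ' hδ').2.1 n).le⟩

theorem free_countable {α : Type} [LinearOrder α] [WellFoundedLT α] {S : Set α} {L : α → ℕ → α}
    (hL : IsLadder S L) {T : Set α} (hT : T ⊆ S) (hc : T.Countable) : Free L T := by
  classical
  obtain ⟨ν, hν⟩ := Set.countable_iff_exists_injOn.1 hc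
  have hex : ∀ δ ∈ T, ∃ b < δ, ∀ δ' ∈ T, ν δ' < ν δ → ∀ ξ ∈ range (L δ), ξ ∈ range (L δ') →
      ξ ≤ b := by
    intro δ hδ
    have hfin : ({δ' | δ' ∈ T ∧ ν δ' < ν δ} : Set α).Finite := by
      refine Set.Finite.of_finite_image (f := ν) ((Set.finite_lt_nat (ν δ)).subset ?_) ?_
      · rintro _ ⟨δ', h, rfl⟩
        exact h.2
      · exact hν.mono fun δ' h => h.1
    have hA : (⋃ δ' ∈ {δ' | δ' ∈ T ∧ ν δ' < ν δ}, range (L δ) ∩ range (L δ')).Finite := by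
      refine hfin.biUnion fun δ' h => f1_inter hL (hT hδ) (hT h.1) ?_
      rintro rfl
      exact lt_irrefl _ h.2
    obtain ⟨b, hb, hb'⟩ := f1_bound hA ((hL δ (hT hδ)).2.1 0) (by
      intro ξ hξ
      simp only [mem_iUnion] at hξ
      obtain ⟨δ', -, ⟨n, rfl⟩, -⟩ := hξ
      exact (hL δ (hT hδ)).2.1 n)
    refine ⟨b, hb, fun δ' hδ' hlt ξ hξ hξ' => hb' ξ ?_⟩
    simp only [mem_iUnion]
    exact ⟨δ', ⟨hδ', hlt⟩, hξ, hξ'⟩
  choose! g hg1 hg2 using hex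
  refine ⟨g, hg1, fun δ hδ δ' hδ' hlt ξ hξ hξ' h1 h2 => ?_⟩
  rcases lt_trichotomy (ν δ) (ν δ') with h | h | h
  · exact absurd (hg2 δ' hδ' δ hδ h ξ hξ' hξ) (not_le.2 h2)
  · exact hlt.ne (hν hδ hδ' h)
  · exact absurd (hg2 δ hδ δ' hδ' h ξ hξ hξ') (not_le.2 h1)

theorem free_insert {α : Type} [LinearOrder α] [WellFoundedLT α] {S : Set α} {L : α → ℕ → α}
    (hL : IsLadder S L) {T : Set α} (hT : T ⊆ S) {β : α} (hβ : β ∈ S) (hlt : ∀ δ ∈ T, δ < β)
    (h : Free L T) : Free L (insert β T) := by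
  classical
  obtain ⟨g, hg1, hg2⟩ := h
  have hb : ∀ γ, γ ∈ T → ∃ b < γ, ∀ ξ ∈ range (L β), ξ < γ → ξ ≤ b :=
    fun γ hγ => ladder_bound hL hβ (hT hγ) (hlt γ hγ)
  choose! b hb1 hb2 using hb
  refine ⟨fun δ => if δ ∈ T then max (g δ) (b δ) else L β 0, ?_, ?_⟩
  · intro δ hδ
    by_cases h : δ ∈ T
    · simp only [if_pos h]
      exact max_lt (hg1 δ h) (hb1 δ h)
    · simp only [if_neg h]
      rcases hδ with rfl | hδ
      · exact (hL δ hβ).2.1 0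
      · exact absurd hδ h
  · intro δ hδ δ' hδ' hδδ' ξ hξ hξ' h1 h2
    have h3 : δ ∈ T := by
      rcases hδ with rfl | hδ
      · rcases hδ' with rfl | hδ'
        · exact absurd hδδ' (lt_irrefl _)
        · exact absurd (hlt δ' hδ') hδδ'.not_gt
      · exact hδ
    simp only [if_pos h3] at h1
    rcases hδ' with rfl | hδ'
    · have h5 : ξ < δ := by
        obtain ⟨n, rfl⟩ := hξ
        exact (hL δ (hT h3)).2.1 n
      have h6 := hb2 δ h3 ξ hξ' h5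
      exact absurd ((le_max_right _ _).trans_lt h1) (not_lt.2 h6)
    · simp only [if_pos hδ'] at h2
      exact hg2 δ h3 δ' hδ' hδδ' ξ hξ hξ' ((le_max_left _ _).trans_lt h1)
        ((le_max_left _ _).trans_lt h2)

end Pool.Agent.Lib_helper70.Lad



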