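import Pool.Agent.Lib_helper70.Lad.Defs
import Pool.Agent.Lib_helper70.Ladder.F1

/-! LAD, block F2 (helper90) -/

set_option autoImplicit false

namespace Pool.Agent.Lib_helper70.Lad

open Set Cardinal Topology Filter Order
open Pool.Agent.Lib_helper70.Cor Pool.Agent.Lib_helper89.Corson

theorem f2_union {Z ι : Type} [LinearOrder ι] {g : Finset Z → Set Z} {N : ι → Set Z}
    (hN : ∀ i, Cld g (N i)) (hm : Monotone N) {K : Set ι} (hK : K.Nonempty) :
    Cld g (⋃ k ∈ K, N k) := by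
  classical
  intro s hs
  have h1 : ∀ t : Finset Z, (t : Set Z) ⊆ ⋃ k ∈ K, N k → ∃ k ∈ K, (t : Set Z) ⊆ N k := by
    intro t
    induction t using Finset.induction_on with
    | empty =>
      intro _
      obtain ⟨k, hk⟩ := hK
      exact ⟨k, hk, by simp⟩
    | insert a t _ ih =>
      intro h
      rw [Finset.coe_insert, insert_subset_iff] at h
      obtain ⟨k, hk, hk'⟩ := ih h.2
      have h2 := h.1
      simp only [mem_iUnion] at h2
      obtain ⟨k', hk1, hk2⟩ := h2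
      rcases le_total k k' with h3 | h3
      · refine ⟨k', hk1, ?_⟩
        rw [Finset.coe_insert, insert_subset_iff]
        exact ⟨hk2, hk'.trans (hm h3)⟩
      · refine ⟨k, hk, ?_⟩
        rw [Finset.coe_insert, insert_subset_iff]
        exact ⟨hm h3 hk2, hk'⟩
  obtain ⟨k, hk, hk'⟩ := h1 s hs
  exact (hN k s hk').trans (subset_biUnion_of_mem hk)

theorem f2_main {α : Type} [LinearOrder α] [WellFoundedLT α] {S : Set α} {L : α → ℕ → α}
    (hL : IsLadder S L) {J : Set α} (hJ : J ⊆ S) {Z : Type} {g : Finset Z → Set Z}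
    (hg : ∀ s, (g s).Countable) (j : α → Z) (hj : Function.Injective j)
    (h1 : ∀ N : Set Z, Cld g N → ∀ δ ∈ J, j δ ∈ N → ∀ n, j (L δ n) ∈ N)
    (h2 : ∀ N : Set Z, Cld g N → ∀ δ ∈ J, j δ ∉ N → {n | j (L δ n) ∈ N}.Finite)
    (μ : Cardinal.{0}) : ∀ N : Set Z, Cld g N → #N = μ → Free L {δ | δ ∈ J ∧ j δ ∈ N} := by
  classical
  induction μ using WellFoundedLT.induction with
  | ind μ ih =>
  intro N hN hμ
  rcases le_or_gt μ ℵ₀ with hle | hgt
  · refine free_countable hL (fun δ h => hJ h.1) ?_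
    have hNc : N.Countable := mk_le_aleph0_iff.1 (hμ.le.trans hle)
    refine (hNc.preimage hj).mono ?_
    intro δ h
    exact h.2
  obtain ⟨e⟩ : Nonempty (μ.ord.ToType ≃ N) := by
    rw [← Cardinal.eq, mk_ord_toType, hμ]
  have hne0 : Nonempty μ.ord.ToType := by
    rw [← mk_ne_zero_iff, mk_ord_toType]
    exact (aleph0_pos.trans hgt).ne'
  set Ni : μ.ord.ToType → Set Z := fun i => hull g ((fun k => (e k : Z)) '' Iic i) with hNi
  have hcl : ∀ i, Cld g (Ni i) := fun i => hull_cld g _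
  have hmono : Monotone Ni := fun i k hik => hull_mono (image_mono (Iic_subset_Iic.2 hik))
  have hcard : ∀ i, #(Ni i) < μ := by
    intro i
    have h3 : #(Iic i) < μ := by
      have h4 : Iic i = insert i (Iio i) := by
        ext k
        rw [mem_insert_iff, mem_Iic, mem_Iio, le_iff_eq_or_lt]
      rw [h4]
      refine lt_of_le_of_lt mk_insert_le ?_
      exact add_lt_of_lt hgt.le (mk_Iio_ord_toType i) (one_lt_aleph0.trans hgt)
    have h5 : #(Ni i) ≤ max ℵ₀ #(Iic i) :=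
      mk_hull_le hg (le_max_left _ _) (mk_image_le.trans (le_max_right _ _))
    exact h5.trans_lt (max_lt hgt h3)
  have hF : ∀ i, Free L {δ | δ ∈ J ∧ j δ ∈ Ni i} := fun i => ih _ (hcard i) (Ni i) (hcl i) rfl
  choose F hF1 hF2 using hF
  have hl : ∀ δ, δ ∈ {δ | δ ∈ J ∧ j δ ∈ N} → ∃ i, j δ ∈ Ni i ∧ ∀ k < i, j δ ∉ Ni k := by
    intro δ hδ
    have hne : {i | j δ ∈ Ni i}.Nonempty := by
      obtain ⟨i, hi⟩ := e.surjective ⟨j δ, hδ.2⟩
      refine ⟨i, subset_hull g _ ⟨i, mem_Iic.2 le_rfl, ?_⟩⟩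
      show (e i : Z) = j δ
      rw [hi]
    obtain ⟨i, hi, hi'⟩ := WellFounded.has_min (wellFounded_lt (α := μ.ord.ToType)) _ hne
    exact ⟨i, hi, fun k hk hk' => hi' k hk' hk⟩
  choose! l hl1 hl2 using hl
  have hm : ∀ δ, δ ∈ {δ | δ ∈ J ∧ j δ ∈ N} → ∃ m : ℕ, ∀ n, ∀ k < l δ, j (L δ n) ∈ Ni k →
      n ≤ m := by
    intro δ hδ
    rcases (Iio (l δ)).eq_empty_or_nonempty with he | hne
    · refine ⟨0, fun n k hk _ => ?_⟩
      have : k ∈ Iio (l δ) := hk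
      rw [he] at this
      exact this.elim
    · have hMc := f2_union hcl hmono hne
      have hnot : j δ ∉ ⋃ k ∈ Iio (l δ), Ni k := by
        intro h
        simp only [mem_iUnion] at h
        obtain ⟨k, hk, hk'⟩ := h
        exact hl2 δ hδ k hk hk'
      have hfin := h2 _ hMc δ hδ.1 hnot
      obtain ⟨m, hm⟩ := hfin.bddAbove
      refine ⟨m, fun n k hk hn => hm ?_⟩
      show j (L δ n) ∈ ⋃ k ∈ Iio (l δ), Ni k
      simp only [mem_iUnion]
      exact ⟨k, hk, hn⟩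
  choose! m hm using hm
  have key : ∀ δ, δ ∈ {δ | δ ∈ J ∧ j δ ∈ N} → ∀ δ', δ' ∈ {δ | δ ∈ J ∧ j δ ∈ N} → l δ' < l δ →
      ∀ ξ ∈ range (L δ), ξ ∈ range (L δ') → ξ ≤ L δ (m δ) := by
    rintro δ hδ δ' hδ' hlt ξ ⟨n, rfl⟩ ⟨n', hn'⟩
    have h3 : j (L δ n) ∈ Ni (l δ') := by
      rw [← hn']
      exact h1 _ (hcl _) δ' hδ'.1 (hl1 δ' hδ') n'
    exact (hL δ (hJ hδ.1)).1.monotone (hm δ hδ n (l δ') hlt h3)
  refine ⟨fun δ => max (F (l δ) δ) (L δ (m δ)), ?_, ?_⟩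
  · intro δ hδ
    exact max_lt (hF1 (l δ) δ ⟨hδ.1, hl1 δ hδ⟩) ((hL δ (hJ hδ.1)).2.1 _)
  · intro δ hδ δ' hδ' hδδ' ξ hξ hξ' h3 h4
    beta_reduce at h3 h4
    rcases lt_trichotomy (l δ) (l δ') with h | h | h
    · exact absurd (key δ' hδ' δ hδ h ξ hξ' hξ) (not_le.2 ((le_max_right _ _).trans_lt h4))
    · have h5 := (le_max_left (F (l δ) δ) _).trans_lt h3
      have h6 := (le_max_left (F (l δ') δ') _).trans_lt h4
      rw [← h] at h6
      have h7 := hl1 δ' hδ'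
      rw [← h] at h7
      exact hF2 (l δ) δ ⟨hδ.1, hl1 δ hδ⟩ δ' ⟨hδ'.1, h7⟩ hδδ' ξ hξ hξ' h5 h6
    · exact absurd (key δ hδ δ' hδ' h ξ hξ hξ') (not_le.2 ((le_max_right _ _).trans_lt h3))

theorem free_of_cld {α : Type} [LinearOrder α] [WellFoundedLT α] {S : Set α} {L : α → ℕ → α}
    (hL : IsLadder S L) {J : Set α} (hJ : J ⊆ S) {Z : Type} {g : Finset Z → Set Z}
    (hg : ∀ s, (g s).Countable) (j : α → Z) (hj : Function.Injective j)
    (h1 : ∀ N : Set Z, Cld g N → ∀ δ ∈ J, j δ ∈ N → ∀ n, j (L δ n) ∈ N)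
    (h2 : ∀ N : Set Z, Cld g N → ∀ δ ∈ J, j δ ∉ N → {n | j (L δ n) ∈ N}.Finite) : Free L J := by
  have h := f2_main hL hJ hg j hj h1 h2 _ Set.univ (cld_univ g) rfl
  have e : {δ | δ ∈ J ∧ j δ ∈ Set.univ} = J := by
    ext δ
    simp
  rwa [e] at h

end Pool.Agent.Lib_helper70.Lad


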