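import Pool.Agent.Lib_helper70.Lad.Defs

/-!
# A compact space whose small subsets have Corson closures is Frechet
-/

set_option autoImplicit false

namespace Pool.Agent.Lib_helper70.Lad

open Set Cardinal Topology Filter Order
open Pool.Agent.Lib_helper70.Cor Pool.Agent.Lib_helper89.Corson

/-- points of `A` approximate a point of its closure -/
theorem fr_approx {X : Type} [TopologicalSpace X] {A : Set X} {z : X} (hz : z ∈ closure A)
    (m n : ℕ) (a : ℕ → X ⊕ C(X, ℝ)) : ∃ p ∈ A, ∀ i < m, ∀ f : C(X, ℝ), a i = Sum.inr f →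
      |f p - f z| < 1 / ((n : ℝ) + 1) := by
  classical
  have hε : (0 : ℝ) < 1 / ((n : ℝ) + 1) := by positivity
  let sf : Finset C(X, ℝ) := ((Finset.range m).image a).preimage Sum.inr Sum.inr_injective.injOn
  have hO : IsOpen (⋂ f ∈ sf, {y : X | |f y - f z| < 1 / ((n : ℝ) + 1)}) :=
    isOpen_biInter_finset fun f _ =>
      isOpen_lt ((f.continuous.sub continuous_const).abs) continuous_const
  obtain ⟨p, hp, hpA⟩ := mem_closure_iff.1 hz _ hO (by
    simp only [mem_iInter, mem_ofPred_eq]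
    intro f _
    simpa using hε)
  refine ⟨p, hpA, fun i hi f hf => ?_⟩
  have h2 := mem_iInter₂.1 hp f (Finset.mem_preimage.2
    (Finset.mem_image.2 ⟨i, Finset.mem_range.2 hi, hf⟩))
  exact h2

open Classical in
/-- limits of sequences of points, separating functions, and points of `A` which approximate `z`
in the sense of finitely many functions -/
noncomputable def fr_op {X : Type} [TopologicalSpace X] (A : Set X) (z : X) (k : ℕ)
    (a : ℕ → X ⊕ C(X, ℝ)) : X ⊕ C(X, ℝ) :=
  if k < 2 then opr X k a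
  else
    if h : ∃ p ∈ A, ∀ i < (Nat.unpair (k - 2)).1, ∀ f : C(X, ℝ), a i = Sum.inr f →
        |f p - f z| < 1 / (((Nat.unpair (k - 2)).2 : ℝ) + 1) then
      Sum.inl h.choose
    else a 0

/-- closed sets contain the approximating points -/
theorem fr_closed_approx {X : Type} [TopologicalSpace X] {A : Set X} {z : X}
    (hz : z ∈ closure A) {Y : Set (X ⊕ C(X, ℝ))} (hzY : Sum.inl z ∈ Y)
    (hY : OmCld (fr_op A z) Y) (s : Finset C(X, ℝ)) (hs : (s : Set C(X, ℝ)) ⊆ fns Y) (n : ℕ) :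
    ∃ p ∈ A ∩ pts Y, ∀ f ∈ s, |f p - f z| < 1 / ((n : ℝ) + 1) := by
  classical
  let a : ℕ → X ⊕ C(X, ℝ) := fun i =>
    if h : i < s.card then Sum.inr (s.equivFin.symm ⟨i, h⟩).1 else Sum.inl z
  have ha : ∀ i, a i ∈ Y := by
    intro i
    by_cases h : i < s.card
    · have h1 : a i = Sum.inr (s.equivFin.symm ⟨i, h⟩).1 := dif_pos h
      rw [h1]
      exact hs (s.equivFin.symm ⟨i, h⟩).2
    · have h1 : a i = Sum.inl z := dif_neg h
      rw [h1]
      exact hzY
  have h1 := hY (Nat.pair s.card n + 2) a ha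
  have h2 : (Nat.unpair (Nat.pair s.card n + 2 - 2)).1 = s.card := by
    rw [Nat.add_sub_cancel, Nat.unpair_pair]
  have h3 : (Nat.unpair (Nat.pair s.card n + 2 - 2)).2 = n := by
    rw [Nat.add_sub_cancel, Nat.unpair_pair]
  have h4 := fr_approx hz (Nat.unpair (Nat.pair s.card n + 2 - 2)).1
    (Nat.unpair (Nat.pair s.card n + 2 - 2)).2 a
  have h5 : fr_op A z (Nat.pair s.card n + 2) a = Sum.inl h4.choose := by
    unfold fr_op
    rw [if_neg (by omega), dif_pos h4]
  rw [h5] at h1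
  obtain ⟨h6, h7⟩ := h4.choose_spec
  refine ⟨h4.choose, ⟨h6, h1⟩, fun f hf => ?_⟩
  clear h1 h5 h6
  generalize h4.choose = p at h7 ⊢
  rw [h2, h3] at h7
  have h8 : (s.equivFin ⟨f, hf⟩).1 < s.card := (s.equivFin ⟨f, hf⟩).2
  refine h7 (s.equivFin ⟨f, hf⟩).1 h8 f ?_
  have h9 : a (s.equivFin ⟨f, hf⟩).1 =
      Sum.inr (s.equivFin.symm ⟨(s.equivFin ⟨f, hf⟩).1, h8⟩).1 := dif_pos h8
  rw [h9]
  simp

/-- the limits and the separating functions -/
theorem fr_closed_lim {X : Type} [TopologicalSpace X] [T2Space X] {A : Set X} {z : X}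
    {Y : Set (X ⊕ C(X, ℝ))} (hY : OmCld (fr_op A z) Y) {a : ℕ → X} (ha : ∀ n, a n ∈ pts Y) {x : X}
    (hax : Tendsto a atTop (𝓝 x)) : x ∈ pts Y := by
  have h1 := hY 0 (fun n => Sum.inl (a n)) ha
  have h2 : ∃ (y : X) (x : ℕ → X), (∀ n, (Sum.inl (a n) : X ⊕ C(X, ℝ)) = Sum.inl (x n)) ∧
      Tendsto x atTop (𝓝 y) := ⟨x, a, fun _ => rfl, hax⟩
  have h3 : h2.choose = x := by
    obtain ⟨b, hb, hb'⟩ := h2.choose_spec
    have hab : b = a := funext fun n => (Sum.inl_injective (hb n)).symm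
    rw [hab] at hb'
    exact tendsto_nhds_unique hb' hax
  have h4 : fr_op A z 0 (fun n => Sum.inl (a n)) = Sum.inl x := by
    unfold fr_op opr
    rw [if_pos (by omega), if_pos rfl, dif_pos h2, h3]
  rw [h4] at h1
  exact h1

theorem fr_closed_sep {X : Type} [TopologicalSpace X] [CompactSpace X] [T2Space X] {A : Set X}
    {z : X} {Y : Set (X ⊕ C(X, ℝ))} (hY : OmCld (fr_op A z) Y) {x y : X} (hx : x ∈ pts Y)
    (hy : y ∈ pts Y) (hxy : x ≠ y) : ∃ f ∈ fns Y, f x ≠ f y := by
  classical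
  obtain ⟨f, hf0, hf1, _⟩ := exists_continuous_zero_one_of_isClosed (isClosed_singleton (x := x))
    (isClosed_singleton (x := y)) (by simpa using hxy)
  have hfxy : f x ≠ f y := by
    rw [hf0 (mem_singleton x), hf1 (mem_singleton y)]
    simp
  set a : ℕ → X ⊕ C(X, ℝ) := fun n => if n = 0 then Sum.inl x else Sum.inl y with ha
  have hx0 : Sum.inl x ∈ Y := hx
  have hy0 : Sum.inl y ∈ Y := hy
  have h1 := hY 1 a (by
    intro n
    by_cases hn : n = 0
    · simpa [ha, hn] using hx0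
    · simpa [ha, hn] using hy0)
  have h2 : ∃ (f : C(X, ℝ)) (x y : X), a 0 = Sum.inl x ∧ a 1 = Sum.inl y ∧ f x ≠ f y :=
    ⟨f, x, y, by simp [ha], by simp [ha], hfxy⟩
  have h4 : fr_op A z 1 a = Sum.inr h2.choose := by
    unfold fr_op opr
    rw [if_pos (by omega), if_neg one_ne_zero, dif_pos h2]
  rw [h4] at h1
  obtain ⟨x', y', hx', hy', hne⟩ := h2.choose_spec
  have hxx : x' = x := by simpa [ha] using hx'.symm
  have hyy : y' = y := by simpa [ha] using hy'.symm
  rw [hxx, hyy] at hne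
  exact ⟨h2.choose, h1, hne⟩

theorem fr_of_small {X : Type} [TopologicalSpace X] [CompactSpace X] [T2Space X]
    (hX : ∀ A : Set X, #A ≤ 𝔠 → SigmaOn (closure A)) : Fr X := by
  classical
  intro A z hz
  obtain ⟨Y, hAY, hYc, hY⟩ := exists_omcld (fr_op A z) (A := {Sum.inl z}) (c := 𝔠)
    continuum_power_aleph0 aleph_one_le_continuum
    (by rw [mk_singleton]; exact one_le_aleph0.trans aleph0_le_continuum)
  have hzY : (Sum.inl z : X ⊕ C(X, ℝ)) ∈ Y := hAY (mem_singleton _)
  have hpc : #(pts Y) ≤ 𝔠 := by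
    refine le_trans ?_ hYc
    exact mk_le_of_injective (f := fun x : pts Y => (⟨Sum.inl x.1, x.2⟩ : Y)) (by
      intro x y h
      exact Subtype.ext (Sum.inl_injective (congrArg Subtype.val h)))
  have hcl : IsClosed (pts Y) := by
    refine isClosed_of_closure_subset fun x hx => ?_
    obtain ⟨a, ha, hax⟩ := frechet isClosed_closure.isCompact subset_closure (hX _ hpc) hx hx
    exact fr_closed_lim hY ha hax
  obtain ⟨x', hx', hx''⟩ := exists_cluster (A := A ∩ pts Y) (F := fns Y) (x := z)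
    fun s hs n => fr_closed_approx hz hzY hY s hs n
  have h1 : x' ∈ pts Y := closure_minimal inter_subset_right hcl hx'
  have h2 : x' = z := by
    by_contra hne
    obtain ⟨f, hf, hfne⟩ := fr_closed_sep hY h1 hzY hne
    exact hfne (hx'' f hf)
  rw [h2] at hx'
  have h3 : #(A ∩ pts Y : Set X) ≤ 𝔠 := (mk_le_mk_of_subset inter_subset_right).trans hpc
  obtain ⟨a, ha, hax⟩ := frechet isClosed_closure.isCompact subset_closure (hX _ h3) hx' hx'
  exact ⟨a, fun n => (ha n).1, hax⟩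


end Pool.Agent.Lib_helper70.Lad
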