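import Pool.Agent.Lib_helper70.Lad.Defs

set_option autoImplicit false

namespace Pool.Agent.Lib_helper70.Lad

open Set Cardinal Topology Filter Order
open Pool.Agent.Lib_helper70.Cor Pool.Agent.Lib_helper89.Corson

/-- the set to be enlarged at the stage `ξ` -/
def mxBase {T Z : Type} [LinearOrder T] (C : Set T) (b : T → Set Z) (eps : T → Set Z → Z → T)
    {ξ : Om1.{0}} (F : {η : Om1.{0} // η < ξ} → T → Set Z) (i : T) : Set Z :=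
  b i ∪ ⋃ η : {η : Om1.{0} // η < ξ}, ((⋃ j : {j : C // (j : T) ≤ i}, F η (j : C)) ∪
    ⋃ k : C, {z | z ∈ F η k ∧ eps k (F η k) z < i})

/-- the matrix -/
noncomputable def mxE {T Z : Type} [LinearOrder T] (C : Set T) (b : T → Set Z)
    (eps : T → Set Z → Z → T) (G : T → Set Z → Set Z) : Om1.{0} → T → Set Z :=
  WellFounded.fix (wellFounded_lt (α := Om1.{0})) fun ξ ih i =>
    G i (mxBase C b eps (ξ := ξ) (fun η => ih η.1 η.2) i)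

theorem mxE_eq {T Z : Type} [LinearOrder T] (C : Set T) (b : T → Set Z)
    (eps : T → Set Z → Z → T) (G : T → Set Z → Set Z) (ξ : Om1.{0}) (i : T) :
    mxE C b eps G ξ i = G i (mxBase C b eps (ξ := ξ) (fun η => mxE C b eps G η.1) i) := by
  unfold mxE
  rw [WellFounded.fix_eq]

theorem mx_aux {Z : Type} {T : Type} [LinearOrder T] {W : Set Z} (e : T → Z)
    (he : ∀ j, e j ∈ W)
    {C : Set T} (hC1 : ∀ i ∈ C, aleph 1 ≤ #(Iio i)) (hC2 : ∀ i ∈ C, #C ≤ #(Iio i))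
    (ok : Set Z → Prop)
    (hok : ∀ i ∈ C, ∀ A ⊆ W, #A ≤ #(Iio i) → ∃ B, A ⊆ B ∧ B ⊆ W ∧ #B ≤ #(Iio i) ∧ ok B)
    (hun : ∀ B : Om1.{0} → Set Z, Monotone B → (∀ ξ, ok (B ξ)) → ok (⋃ ξ, B ξ)) :
    ∃ A : T → Set Z, (∀ i ∈ C, ok (A i) ∧ A i ⊆ W ∧ #(A i) ≤ #(Iio i)) ∧
      (∀ i ∈ C, ∀ j < i, e j ∈ A i) ∧ (∀ i ∈ C, ∀ j ∈ C, i ≤ j → A i ⊆ A j) ∧
      ∀ δ ∈ C, (∀ x < δ, ∃ i ∈ C, x < i ∧ i < δ) → A δ ⊆ ⋃ i ∈ C ∩ Iio δ, A i := by
  classical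
  -- the choice of the enlargement
  have hG : ∀ i : T, ∀ A : Set Z, ∃ B : Set Z, i ∈ C → A ⊆ W → #A ≤ #(Iio i) →
      A ⊆ B ∧ B ⊆ W ∧ #B ≤ #(Iio i) ∧ ok B := by
    intro i A
    by_cases h : i ∈ C ∧ A ⊆ W ∧ #A ≤ #(Iio i)
    · obtain ⟨B, hB⟩ := hok i h.1 A h.2.1 h.2.2
      exact ⟨B, fun _ _ _ => hB⟩
    · exact ⟨A, fun h1 h2 h3 => absurd ⟨h1, h2, h3⟩ h⟩
  choose G hG using hG
  -- the choice of the injections
  have heps : ∀ i : T, ∀ A : Set Z, ∃ f : Z → T, #A ≤ #(Iio i) →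
      InjOn f A ∧ ∀ z ∈ A, f z < i := by
    intro i A
    by_cases h : #A ≤ #(Iio i)
    · obtain ⟨f⟩ := h
      refine ⟨fun z => if hz : z ∈ A then (f ⟨z, hz⟩ : T) else i, fun _ => ⟨?_, ?_⟩⟩
      · intro z hz w hw hzw
        simp only [hz, hw, dif_pos] at hzw
        have := f.injective (Subtype.ext hzw)
        simpa using this
      · intro z hz
        simp only [hz, dif_pos]
        exact (f ⟨z, hz⟩).2
    · exact ⟨fun _ => i, fun h1 => absurd h1 h⟩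
  choose eps heps using heps
  set b : T → Set Z := fun i => e '' Iio i with hb
  set E := mxE C b eps G with hE
  have h0 : ∀ i ∈ C, ℵ₀ ≤ #(Iio i) := fun i hi => aleph0_lt_aleph_one.le.trans (hC1 i hi)
  -- sizes
  have key : ∀ ξ : Om1.{0}, ∀ i ∈ C,
      mxBase C b eps (ξ := ξ) (fun η => E η.1) i ⊆ E ξ i ∧ E ξ i ⊆ W ∧ #(E ξ i) ≤ #(Iio i) ∧
        ok (E ξ i) := by
    intro ξ
    induction ξ using WellFoundedLT.induction with
    | ind ξ ih =>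
      intro i hi
      have hi0 := h0 i hi
      have hsub : mxBase C b eps (ξ := ξ) (fun η => E η.1) i ⊆ W := by
        refine union_subset ?_ (iUnion_subset fun η => union_subset ?_ ?_)
        · rintro _ ⟨j, _, rfl⟩
          exact he j
        · exact iUnion_subset fun j => (ih η.1 η.2 j.1 j.1.2).2.1
        · exact iUnion_subset fun k z hz => (ih η.1 η.2 k k.2).2.1 hz.1
      have hcard : #(mxBase C b eps (ξ := ξ) (fun η => E η.1) i) ≤ #(Iio i) := by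
        refine (mk_union_le _ _).trans ((add_le_add mk_image_le ?_).trans (add_eq_self hi0).le)
        have h2 : #{η : Om1.{0} // η < ξ} ≤ #(Iio i) := by
          refine (mk_subtype_le _).trans ?_
          simpa using hC1 i hi
        refine (mk_iUnion_le _).trans ((mul_le_mul' h2 ?_).trans (mul_eq_self hi0).le)
        refine ciSup_le' fun η => ?_
        refine (mk_union_le _ _).trans ((add_le_add ?_ ?_).trans (add_eq_self hi0).le)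
        · have h3 : #{j : C // (j : T) ≤ i} ≤ #(Iio i) := (mk_subtype_le _).trans (hC2 i hi)
          refine (mk_iUnion_le _).trans ((mul_le_mul' h3 ?_).trans (mul_eq_self hi0).le)
          refine ciSup_le' fun j => ?_
          refine ((ih η.1 η.2 j.1 j.1.2).2.2.1).trans ?_
          exact mk_le_mk_of_subset (Iio_subset_Iio j.2)
        · refine (mk_iUnion_le _).trans ((mul_le_mul' (hC2 i hi) ?_).trans (mul_eq_self hi0).le)
          refine ciSup_le' fun k => ?_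
          have h4 := heps k (E η.1 k) (ih η.1 η.2 k k.2).2.2.1
          refine mk_le_of_injective (f := fun z : {z | z ∈ E η.1 k ∧ eps k (E η.1 k) z < i} =>
            (⟨eps k (E η.1 k) z.1, z.2.2⟩ : Iio i)) ?_
          intro z w hzw
          exact Subtype.ext (h4.1 z.2.1 w.2.1 (congrArg Subtype.val hzw))
      have h5 := hG i _ hi hsub hcard
      have h6 : E ξ i = G i (mxBase C b eps (ξ := ξ) (fun η => E η.1) i) := mxE_eq C b eps G ξ i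
      rw [h6]
      exact h5
  have hsuc : ∀ ξ : Om1.{0}, ∃ ζ : Om1.{0}, ξ < ζ := by
    intro ξ
    obtain ⟨ζ, hζ⟩ := om1_bdd (countable_singleton ξ)
    exact ⟨ζ, hζ ξ rfl⟩
  have hle : ∀ ξ ζ : Om1.{0}, ξ < ζ → ∀ i ∈ C, ∀ j ∈ C, i ≤ j → E ξ i ⊆ E ζ j := by
    intro ξ ζ hξ i hi j hj hij z hz
    refine (key ζ j hj).1 (Or.inr (mem_iUnion.2 ⟨⟨ξ, hξ⟩, Or.inl (mem_iUnion.2 ⟨⟨⟨i, hi⟩, hij⟩, ?_⟩)⟩))
    exact hz
  refine ⟨fun i => ⋃ ξ, E ξ i, ?_, ?_, ?_, ?_⟩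
  · intro i hi
    refine ⟨?_, ?_, ?_⟩
    · refine hun (fun ξ => E ξ i) ?_ fun ξ => (key ξ i hi).2.2.2
      intro ξ ζ hξ
      rcases lt_or_eq_of_le hξ with h | h
      · exact hle ξ ζ h i hi i hi le_rfl
      · rw [h]
    · exact iUnion_subset fun ξ => (key ξ i hi).2.1
    · have hi0 := h0 i hi
      refine (mk_iUnion_le _).trans ((mul_le_mul' (by simpa using hC1 i hi) ?_).trans
        (mul_eq_self hi0).le)
      exact ciSup_le' fun ξ => (key ξ i hi).2.2.1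
  · intro i hi j hj
    obtain ⟨ξ, _⟩ := om1_bdd (J := (∅ : Set Om1.{0})) countable_empty
    exact mem_iUnion.2 ⟨ξ, (key ξ i hi).1 (Or.inl ⟨j, hj, rfl⟩)⟩
  · intro i hi j hj hij z hz
    obtain ⟨ξ, hξ⟩ := mem_iUnion.1 hz
    obtain ⟨ζ, hζ⟩ := hsuc ξ
    exact mem_iUnion.2 ⟨ζ, hle ξ ζ hζ i hi j hj hij hξ⟩
  · intro δ hδ hlim z hz
    obtain ⟨ξ, hξ⟩ := mem_iUnion.1 hz
    obtain ⟨ζ, hζ⟩ := hsuc ξ
    have h4 := heps δ (E ξ δ) (key ξ δ hδ).2.2.1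
    obtain ⟨i, hi, h5, h6⟩ := hlim _ (h4.2 z hξ)
    refine mem_iUnion₂.2 ⟨i, ⟨hi, h6⟩, mem_iUnion.2 ⟨ζ, (key ζ i hi).1 (Or.inr ?_)⟩⟩
    exact mem_iUnion.2 ⟨⟨ξ, hζ⟩, Or.inr (mem_iUnion.2 ⟨⟨δ, hδ⟩, hξ, h5⟩)⟩

theorem exists_matrix {Z : Type} {κ : Cardinal.{0}} {W : Set Z} (e : κ.ord.ToType ≃ W)
    {C : Set κ.ord.ToType} (hC1 : ∀ i ∈ C, aleph 1 ≤ #(Iio i)) (hC2 : ∀ i ∈ C, #C ≤ #(Iio i))
    (ok : Set Z → Prop)
    (hok : ∀ i ∈ C, ∀ A ⊆ W, #A ≤ #(Iio i) → ∃ B, A ⊆ B ∧ B ⊆ W ∧ #B ≤ #(Iio i) ∧ ok B)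
    (hun : ∀ B : Om1.{0} → Set Z, Monotone B → (∀ ξ, ok (B ξ)) → ok (⋃ ξ, B ξ)) :
    ∃ A : κ.ord.ToType → Set Z, (∀ i ∈ C, ok (A i) ∧ A i ⊆ W ∧ #(A i) ≤ #(Iio i)) ∧
      (∀ i ∈ C, ∀ j < i, (e j : Z) ∈ A i) ∧ (∀ i ∈ C, ∀ j ∈ C, i ≤ j → A i ⊆ A j) ∧
      ∀ δ ∈ C, (∀ x < δ, ∃ i ∈ C, x < i ∧ i < δ) → A δ ⊆ ⋃ i ∈ C ∩ Iio δ, A i :=
  mx_aux (fun j => (e j : Z)) (fun j => (e j).2) hC1 hC2 ok hok hun


end Pool.Agent.Lib_helper70.Lad
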