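import Pool.Agent.Lib_helper70.Lad.Defs

set_option autoImplicit false

namespace Pool.Agent.Lib_helper70.Lad

open Set Cardinal Topology Filter Order
open Pool.Agent.Lib_helper70.Cor Pool.Agent.Lib_helper89.Corson

/-- an initial segment of size at least `μ` -/
theorem sc_seg {κ μ : Cardinal.{0}} (hμ : μ < κ) : ∃ i : κ.ord.ToType, μ ≤ #(Iio i) := by
  have h1 : μ.ord < κ.ord := Cardinal.ord_lt_ord.2 hμ
  refine ⟨Ordinal.ToType.mk ⟨μ.ord, h1⟩, ?_⟩
  have h2 : (Ordinal.typein (α := κ.ord.ToType) (· < ·) (Ordinal.ToType.mk ⟨μ.ord, h1⟩)).card =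
      #(Iio (Ordinal.ToType.mk ⟨μ.ord, h1⟩ : κ.ord.ToType)) := Ordinal.card_typein _
  rw [← h2]
  have h3 : Ordinal.typein (α := κ.ord.ToType) (· < ·) (Ordinal.ToType.mk ⟨μ.ord, h1⟩) = μ.ord := by
    rw [Ordinal.ToType.mk_apply]
    exact Ordinal.typein_enum _ _
  rw [h3, Cardinal.card_ord]

theorem exists_small_club {κ ν : Cardinal.{0}} (hκ : ℵ₀ ≤ κ) (hs : ¬ κ.IsRegular) (hν : ν < κ) :
    ∃ C : Set κ.ord.ToType, #C < κ ∧ (∀ x, ∃ i ∈ C, x < i) ∧ (∀ i ∈ C, ν ≤ #(Iio i)) ∧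
      (∀ i ∈ C, #C ≤ #(Iio i)) ∧
      ∀ c ⊆ C, c.Nonempty → (∀ i ∈ c, ∃ j ∈ c, i < j) → ∀ δ, IsLUB c δ → δ ∈ C := by
  classical
  have : NoMaxOrder κ.ord.ToType := Cardinal.noMaxOrder hκ
  -- a cofinal set
  obtain ⟨S, hScof, hScard⟩ := Order.exists_cof_eq κ.ord.ToType
  have hSκ : #S < κ := by
    rw [hScard, Ordinal.cof_toType]
    by_contra hcon
    exact hs ⟨hκ, not_lt.1 hcon⟩
  -- its limit points
  set L : Set κ.ord.ToType := {i | ∀ x < i, ∃ s ∈ S, x < s ∧ s < i} with hL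
  have hLS : #L ≤ #S := by
    have hmin : ∀ i : κ.ord.ToType, ({s ∈ S | i ≤ s} : Set κ.ord.ToType).Nonempty := by
      intro i
      obtain ⟨s, hs, his⟩ := hScof i
      exact ⟨s, hs, his⟩
    set m : κ.ord.ToType → κ.ord.ToType := fun i =>
      wellFounded_lt.min {s ∈ S | i ≤ s} (hmin i) with hm
    have hm1 : ∀ i, m i ∈ S ∧ i ≤ m i := fun i => wellFounded_lt.min_mem _ (hmin i)
    have hm2 : ∀ i, ∀ s ∈ S, i ≤ s → m i ≤ s := fun i s hs his =>
      not_lt.1 (wellFounded_lt.not_lt_min {s ∈ S | i ≤ s} ⟨hs, his⟩)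
    have hinj : ∀ i ∈ L, ∀ j ∈ L, i < j → m i ≠ m j := by
      intro i _ j hj hij heq
      obtain ⟨s, hs, h1, h2⟩ := hj i hij
      have h3 := hm2 i s hs h1.le
      have h4 := (hm1 j).2
      rw [← heq] at h4
      exact absurd (h4.trans h3) (not_le.2 h2)
    refine Cardinal.mk_le_of_injective (f := fun i : L => (⟨m i, (hm1 i).1⟩ : S)) ?_
    intro i j hij
    have hij' : m i = m j := congrArg Subtype.val hij
    rcases lt_trichotomy (i : κ.ord.ToType) j with h | h | h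
    · exact absurd hij' (hinj i i.2 j j.2 h)
    · exact Subtype.ext h
    · exact absurd hij'.symm (hinj j j.2 i i.2 h)
  have hC' : #(S ∪ L : Set κ.ord.ToType) < κ := by
    refine (Cardinal.mk_union_le S L).trans_lt ?_
    exact Cardinal.add_lt_of_lt hκ hSκ (hLS.trans_lt hSκ)
  obtain ⟨i0, hi0⟩ := sc_seg (max_lt hν hC')
  have hmono : ∀ i : κ.ord.ToType, i0 < i → #(Iio i0) ≤ #(Iio i) := fun i hi =>
    Cardinal.mk_le_mk_of_subset (Iio_subset_Iio hi.le)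
  have hCle : #({i | i ∈ S ∪ L ∧ i0 < i} : Set κ.ord.ToType) ≤ #(S ∪ L : Set κ.ord.ToType) :=
    Cardinal.mk_le_mk_of_subset fun i hi => hi.1
  refine ⟨{i | i ∈ S ∪ L ∧ i0 < i}, hCle.trans_lt hC', ?_, ?_, ?_, ?_⟩
  · intro x
    obtain ⟨y, hy⟩ := exists_gt (max x i0)
    obtain ⟨s, hs, hys⟩ := hScof y
    exact ⟨s, ⟨Or.inl hs, ((le_max_right _ _).trans_lt hy).trans_le hys⟩,
      ((le_max_left _ _).trans_lt hy).trans_le hys⟩
  · intro i hi
    exact (le_max_left _ _).trans (hi0.trans (hmono i hi.2))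
  · intro i hi
    exact hCle.trans ((le_max_right _ _).trans (hi0.trans (hmono i hi.2)))
  · intro c hc hcne hcmax δ hδ
    have hlt : ∀ i ∈ c, i < δ := by
      intro i hi
      obtain ⟨j, hj, hij⟩ := hcmax i hi
      exact hij.trans_le (hδ.1 hj)
    refine ⟨Or.inr ?_, ?_⟩
    · intro x hx
      obtain ⟨i, hi, hxi⟩ := (lt_isLUB_iff hδ).1 hx
      obtain ⟨j, hj, hij⟩ := hcmax i hi
      rcases (hc hj).1 with hjS | hjL
      · exact ⟨j, hjS, hxi.trans hij, hlt j hj⟩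
      · obtain ⟨s, hs, h1, h2⟩ := hjL i hij
        exact ⟨s, hs, hxi.trans h1, h2.trans (hlt j hj)⟩
    · obtain ⟨i, hi⟩ := hcne
      exact (hc hi).2.trans (hlt i hi)

end Pool.Agent.Lib_helper70.Lad


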