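import Pool.Agent.Lib_helper70.Lad.Defs
import Pool.Agent.Lib_helper70.Ladder.GD
import Pool.Agent.Lib_helper70.Ladder.CH
import Pool.Agent.Lib_helper70.Ladder.CG
import Pool.Agent.Lib_helper70.Ladder.SC
import Pool.Agent.Lib_helper70.Ladder.MX

set_option autoImplicit false

namespace Pool.Agent.Lib_helper70.Lad

open Set Cardinal Topology Filter Order
open Pool.Agent.Lib_helper70.Cor Pool.Agent.Lib_helper89.Corson

theorem ng_gd_self {X : Type} [TopologicalSpace X] (W : Set (X ⊕ C(X, ℝ))) : Gd W W :=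
  fun _ _ _ _ h => h

/-- a countable subset of an increasing union of length `ω₁` is contained in one of the sets -/
theorem ng_om1 {Z : Type} (B : Om1.{0} → Set Z) (hB : Monotone B) {c : Set Z} (hc : c.Countable)
    (h : c ⊆ ⋃ ξ, B ξ) : ∃ ξ, c ⊆ B ξ := by
  have h1 : ∀ z : c, ∃ ξ, (z : Z) ∈ B ξ := fun z => mem_iUnion.1 (h z.2)
  choose f hf using h1
  have : Countable c := hc.to_subtype
  obtain ⟨i, hi⟩ := om1_bdd (J := range f) (countable_range f)
  exact ⟨i, fun z hz => hB (hi (f ⟨z, hz⟩) ⟨⟨z, hz⟩, rfl⟩).le (hf ⟨z, hz⟩)⟩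

theorem ng_union {X : Type} [TopologicalSpace X] [CompactSpace X] (hF : Fr X)
    {W : Set (X ⊕ C(X, ℝ))} (B : Om1.{0} → Set (X ⊕ C(X, ℝ))) (hB : Monotone B)
    (h : ∀ ξ, Cld g0 (B ξ) ∧ Gd (B ξ) W) : Cld g0 (⋃ ξ, B ξ) ∧ Gd (⋃ ξ, B ξ) W := by
  constructor
  · intro s hs
    obtain ⟨ξ, hξ⟩ := ng_om1 B hB (Finset.countable_toSet s) hs
    exact ((h ξ).1 s hξ).trans (subset_iUnion B ξ)
  · refine gd_of_countable hF fun c hcA hc => ?_
    obtain ⟨ξ, hξ⟩ := ng_om1 B hB hc hcA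
    exact ⟨B ξ, hξ, subset_iUnion B ξ, (h ξ).2⟩

theorem ns_singular {X : Type} [TopologicalSpace X] [CompactSpace X] (hF : Fr X)
    {W : Set (X ⊕ C(X, ℝ))} (hW : Cld g0 W) (hc : 𝔠 < #W) (hs : ¬ (#W).IsRegular)
    (hns : ∀ A ⊆ W, Cld g0 A → #A < #W → NS A) : NS W := by
  classical
  have hinf : ℵ₀ ≤ #W := (aleph0_lt_continuum.trans hc).le
  have he : #((#W).ord.ToType) = #W := mk_ord_toType _
  obtain ⟨e⟩ := Cardinal.eq.1 he
  have hIio : ∀ i : (#W).ord.ToType, #(Iio i) < #W := fun i => by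
    have h1 := Cardinal.mk_Iio_lt i (by rw [he]; simp)
    rwa [he] at h1
  obtain ⟨C, hC0, hC1, hC2, hC3, hC4⟩ := exists_small_club hinf hs hc
  have hsucc : ∀ i : (#W).ord.ToType, i ∈ C → Order.succ #(Iio i) < #W := by
    intro i hi
    refine lt_of_le_of_ne (Order.succ_le_of_lt (hIio i)) fun h => hs ?_
    rw [← h]
    exact isRegular_succ (aleph0_lt_continuum.le.trans (hC2 i hi))
  obtain ⟨A, hA1, hA2, hA3, hA4⟩ := exists_matrix e
    (fun i hi => aleph_one_le_continuum.trans (hC2 i hi)) hC3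
    (fun B => Cld g0 B ∧ Gd B W)
    (by
      intro i hi A hA hAi
      obtain ⟨B, h1, h2, h3, h4, h5⟩ := cofinal_good hF hW
        (aleph0_lt_continuum.le.trans (hC2 i hi))
        (fun A' hA' hcl hle => hns A' hA' hcl (lt_of_le_of_lt hle (hsucc i hi))) hA hAi
      exact ⟨B, h1, h2, h4, h3, h5⟩)
    (fun B hB h => ng_union hF B hB h)
  have hρ : ∀ z : X ⊕ C(X, ℝ), ∃ i : C, z ∈ W → z ∈ A i := by
    intro z
    by_cases hz : z ∈ W
    · obtain ⟨i, hi, hlt⟩ := hC1 (e.symm ⟨z, hz⟩)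
      refine ⟨⟨i, hi⟩, fun _ => ?_⟩
      have h1 := hA2 i hi _ hlt
      rwa [Equiv.apply_symm_apply] at h1
    · have hne : Nonempty (#W).ord.ToType := by
        rw [← Cardinal.mk_ne_zero_iff, he]
        exact (lt_of_lt_of_le aleph0_pos hinf).ne'
      obtain ⟨i, hi, -⟩ := hC1 hne.some
      exact ⟨⟨i, hi⟩, fun h => absurd h hz⟩
  choose ρ hρ using hρ
  refine ns_chain hF (fun i : C => A i) (fun i => (hA1 i i.2).2.1) ρ hρ
    (fun i => (hA1 i i.2).1.1)
    (fun i => hns _ (hA1 i i.2).2.1 (hA1 i i.2).1.1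
      (lt_of_le_of_lt (hA1 i i.2).2.2 (hIio i))) ?_
  intro c hcc hcne
  by_cases hmax : ∃ m ∈ c, ∀ i ∈ c, i ≤ m
  · obtain ⟨m, hm, hmx⟩ := hmax
    have h1 : (⋃ i ∈ c, A (i : (#W).ord.ToType)) = A m := by
      refine Subset.antisymm (iUnion₂_subset fun i hi => ?_) ?_
      · exact hA3 i i.2 m m.2 (hmx i hi)
      · exact subset_iUnion₂ (s := fun (i : C) (_ : i ∈ c) => A (i : (#W).ord.ToType)) m hm
    rw [h1]
    exact (hA1 m m.2).1.2
  · push Not at hmax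
    set c' : Set (#W).ord.ToType := Subtype.val '' c with hc'
    have hc'C : c' ⊆ C := by
      rintro _ ⟨i, -, rfl⟩
      exact i.2
    have hmax' : ∀ i ∈ c', ∃ j ∈ c', i < j := by
      rintro _ ⟨i, hi, rfl⟩
      obtain ⟨j, hj, hij⟩ := hmax i hi
      exact ⟨j, ⟨j, hj, rfl⟩, hij⟩
    by_cases hbd : (upperBounds c').Nonempty
    · obtain ⟨δ, hδ⟩ := exists_lub hbd
      have hδC : δ ∈ C := hC4 c' hc'C (hcne.image _) hmax' δ hδ
      have hlt : ∀ i ∈ c', i < δ := fun i hi => by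
        obtain ⟨j, hj, hij⟩ := hmax' i hi
        exact hij.trans_le (hδ.1 hj)
      have h1 : (⋃ i ∈ c, A (i : (#W).ord.ToType)) = A δ := by
        refine Subset.antisymm (iUnion₂_subset fun i hi => ?_) ?_
        · exact hA3 i i.2 δ hδC (hlt i ⟨i, hi, rfl⟩).le
        · refine (hA4 δ hδC fun x hx => ?_).trans (iUnion₂_subset fun i hi => ?_)
          · obtain ⟨_, ⟨i, hi, rfl⟩, hxi⟩ := (lt_isLUB_iff hδ).1 hx
            exact ⟨i, i.2, hxi, hlt i ⟨i, hi, rfl⟩⟩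
          · obtain ⟨_, ⟨j, hj, rfl⟩, hij⟩ := (lt_isLUB_iff hδ).1 hi.2
            exact (hA3 i hi.1 j j.2 hij.le).trans
              (subset_iUnion₂ (s := fun (i : C) (_ : i ∈ c) => A (i : (#W).ord.ToType)) j hj)
      rw [h1]
      exact (hA1 δ hδC).1.2
    · have h1 : (⋃ i ∈ c, A (i : (#W).ord.ToType)) = W := by
        refine Subset.antisymm (iUnion₂_subset fun i _ => (hA1 i i.2).2.1) fun z hz => ?_
        have h2 : ∃ i ∈ c', e.symm ⟨z, hz⟩ < i := by
          by_contra hcon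
          push Not at hcon
          exact hbd ⟨_, fun i hi => hcon i hi⟩
        obtain ⟨_, ⟨i, hi, rfl⟩, hlt⟩ := h2
        have h3 := hA2 i i.2 _ hlt
        rw [Equiv.apply_symm_apply] at h3
        exact mem_iUnion₂.2 ⟨i, hi, h3⟩
      rw [h1]
      exact ng_gd_self W

end Pool.Agent.Lib_helper70.Lad


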