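import Pool.Agent.Lib_helper70.Lad.Defs

set_option autoImplicit false

namespace Pool.Agent.Lib_helper70.Lad

open Set Cardinal Topology Filter Order
open Pool.Agent.Lib_helper70.Cor Pool.Agent.Lib_helper89.Corson

theorem exists_proj {Z Z' : Type} (g' : Finset Z' → Set Z') (hg' : ∀ s, (g' s).Countable)
    (j : Z → Z') (hj : Function.Injective j) (W : Set Z) :
    ∃ g : Finset Z → Set Z, (∀ s, (g s).Countable) ∧ Cld g W ∧
      ∀ N ⊆ W, Cld g N → ∃ N' : Set Z', Cld g' N' ∧ ∀ z ∈ W, j z ∈ N' ↔ z ∈ N := by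
  classical
  refine ⟨fun s => {z | z ∈ W ∧ j z ∈ hull g' (j '' (s : Set Z))}, fun s => ?_, ?_, ?_⟩
  · have h1 : (hull g' (j '' (s : Set Z))).Countable :=
      hull_countable hg' ((s.countable_toSet).image j)
    exact (h1.preimage hj).mono fun z hz => hz.2
  · intro s _ z hz
    exact hz.1
  · intro N hN hc
    refine ⟨hull g' (j '' N), hull_cld _ _, fun z hz =>
      ⟨fun h => ?_, fun h => subset_hull _ _ ⟨z, h, rfl⟩⟩⟩
    obtain ⟨F, hF, hzF⟩ := mem_hull_finite h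
    obtain ⟨s, hs⟩ : ∃ s : Finset Z, ∀ x, x ∈ s ↔ j x ∈ F :=
      ⟨F.preimage j hj.injOn, fun x => Finset.mem_preimage⟩
    have h1 : (s : Set Z) ⊆ N := by
      intro x hx
      obtain ⟨y, hy, hyx⟩ := hF ((hs x).1 hx)
      rw [← hj hyx]
      exact hy
    have h2 : (F : Set Z') ⊆ j '' (s : Set Z) := by
      intro w hw
      obtain ⟨y, hy, rfl⟩ := hF hw
      exact ⟨y, (hs y).2 hw, rfl⟩
    exact hc s h1 ⟨hz, hull_mono h2 hzF⟩

end Pool.Agent.Lib_helper70.Lad


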