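import Pool.Agent.Lib_helper70.Lad.Defs

set_option autoImplicit false

namespace Pool.Agent.Lib_helper70.Lad

open Set Cardinal Topology Filter Order
open Pool.Agent.Lib_helper70.Cor Pool.Agent.Lib_helper89.Corson

theorem exists_sep_pairs {K Γ : Type} [TopologicalSpace K] [CompactSpace K]
    (φ : Γ → C(K, ℝ)) (F : Set C(K, ℝ)) (s : Finset Γ) :
    ∃ (D : Set (K × K)) (G : Set C(K, ℝ)), D.Countable ∧ G.Countable ∧ G ⊆ F ∧
      (∀ p ∈ D, ∀ f ∈ F, f p.1 = f p.2) ∧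
      ∀ x y : K, (∀ f ∈ G, f x = f y) → ∀ n : ℕ, ∃ p ∈ D, ∀ γ ∈ s,
        |φ γ p.1 - φ γ x| < 1 / ((n : ℝ) + 1) ∧ |φ γ p.2 - φ γ y| < 1 / ((n : ℝ) + 1) := by
  classical
  set R : Set (K × K) := {p | ∀ f ∈ F, f p.1 = f p.2} with hR
  set Ψ : K × K → (s → ℝ × ℝ) := fun p γ => (φ γ p.1, φ γ p.2) with hΨ
  have hΨc : Continuous Ψ := by
    refine continuous_pi fun γ => ?_
    exact ((φ γ).continuous.comp continuous_fst).prodMk ((φ γ).continuous.comp continuous_snd)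
  -- a countable dense subset of the image of `R`
  obtain ⟨t, htR, htc, htd⟩ :=
    (TopologicalSpace.IsSeparable.of_separableSpace (Ψ '' R)).exists_countable_dense_subset
  have hch : ∀ y : t, ∃ p ∈ R, Ψ p = y := fun y => htR y.2
  choose r hrR hrt using hch
  have : Countable t := htc.to_subtype
  -- the separating functions
  set P : ℕ → Set (K × K) := fun n => {p | ∀ q ∈ R, 1 / ((n : ℝ) + 1) ≤ dist (Ψ p) (Ψ q)} with hP
  have hPc : ∀ n, IsCompact (P n) := by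
    intro n
    refine IsClosed.isCompact ?_
    have h1 : P n = ⋂ q ∈ R, {p | 1 / ((n : ℝ) + 1) ≤ dist (Ψ p) (Ψ q)} := by
      ext p; simp [hP]
    rw [h1]
    exact isClosed_biInter fun q _ => isClosed_le continuous_const (hΨc.dist continuous_const)
  have hfin : ∀ n, ∃ G : Finset C(K, ℝ), (G : Set C(K, ℝ)) ⊆ F ∧
      ∀ p ∈ P n, ∃ f ∈ G, f p.1 ≠ f p.2 := by
    intro n
    have hcov : P n ⊆ ⋃ f : F, {p : K × K | (f : C(K, ℝ)) p.1 ≠ (f : C(K, ℝ)) p.2} := by
      intro p hp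
      by_contra hcon
      have hpR : p ∈ R := by
        intro f hf
        by_contra hne
        exact hcon (mem_iUnion.2 ⟨⟨f, hf⟩, hne⟩)
      have h1 := hp p hpR
      rw [dist_self] at h1
      have h2 : (0 : ℝ) < 1 / ((n : ℝ) + 1) := by positivity
      linarith
    obtain ⟨G, hG⟩ := (hPc n).elim_finite_subcover _ (fun f => by
      have h1 : Continuous fun p : K × K => (f : C(K, ℝ)) p.1 :=
        (f : C(K, ℝ)).continuous.comp continuous_fst
      have h2 : Continuous fun p : K × K => (f : C(K, ℝ)) p.2 :=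
        (f : C(K, ℝ)).continuous.comp continuous_snd
      exact isOpen_ne_fun h1 h2) hcov
    refine ⟨G.image (fun f : F => (f : C(K, ℝ))), ?_, ?_⟩
    · intro f hf
      simp only [Finset.coe_image, mem_image] at hf
      obtain ⟨g, _, rfl⟩ := hf
      exact g.2
    · intro p hp
      obtain ⟨f, hfG, hf⟩ := mem_iUnion₂.1 (hG hp)
      exact ⟨f, Finset.mem_image_of_mem _ hfG, hf⟩
  choose G hGF hG using hfin
  refine ⟨range r, ⋃ n, (G n : Set C(K, ℝ)), countable_range r,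
    countable_iUnion fun n => (G n).countable_toSet, iUnion_subset hGF, ?_, ?_⟩
  · rintro p ⟨y, rfl⟩
    exact hrR y
  · intro x y hxy n
    have hn0 : (0 : ℝ) < (n : ℝ) + 1 := by positivity
    have h1 : (x, y) ∉ P (2 * n + 1) := by
      intro hp
      obtain ⟨f, hf, hne⟩ := hG _ _ hp
      exact hne (hxy f (mem_iUnion.2 ⟨_, hf⟩))
    have h2 : ∃ q ∈ R, dist (Ψ (x, y)) (Ψ q) < 1 / (((2 * n + 1 : ℕ) : ℝ) + 1) := by
      by_contra hcon
      push Not at hcon
      exact h1 hcon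
    obtain ⟨q, hqR, hq⟩ := h2
    have h3 : Ψ q ∈ closure t := htd ⟨q, hqR, rfl⟩
    have hpos : (0 : ℝ) < 1 / (((2 * n + 1 : ℕ) : ℝ) + 1) := by positivity
    obtain ⟨z, hz, hzd⟩ := Metric.mem_closure_iff.1 h3 _ hpos
    refine ⟨r ⟨z, hz⟩, mem_range_self _, fun γ hγ => ?_⟩
    have h4 : dist (Ψ (x, y)) (Ψ (r ⟨z, hz⟩)) < 1 / ((n : ℝ) + 1) := by
      rw [hrt]
      refine (dist_triangle _ (Ψ q) _).trans_lt ?_
      have h5 : 1 / (((2 * n + 1 : ℕ) : ℝ) + 1) + 1 / (((2 * n + 1 : ℕ) : ℝ) + 1) =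
          1 / ((n : ℝ) + 1) := by
        push_cast
        field_simp
        ring
      rw [← h5]
      exact add_lt_add hq hzd
    have h5 := (dist_le_pi_dist (Ψ (x, y)) (Ψ (r ⟨z, hz⟩)) ⟨γ, hγ⟩).trans_lt h4
    rw [Prod.dist_eq, max_lt_iff] at h5
    refine ⟨?_, ?_⟩
    · rw [← Real.dist_eq, dist_comm]
      exact h5.1
    · rw [← Real.dist_eq, dist_comm]
      exact h5.2

end Pool.Agent.Lib_helper70.Lad


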