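import Pool.Agent.Lib_helper70.Lad.Defs
import Pool.Agent.Lib_helper70.Ladder.PR
import Pool.Agent.Lib_helper70.Ladder.SP

/-!
# Block NV: closures which are Corson have a club of good countable sets
-/

set_option autoImplicit false

namespace Pool.Agent.Lib_helper70.Lad

open Set Cardinal Topology Filter Order
open Pool.Agent.Lib_helper70.Cor Pool.Agent.Lib_helper89.Corson

/-- the operations on points, functions and coordinates -/
def nvG {X : Type} [TopologicalSpace X] {V : Set (X ⊕ C(X, ℝ))} {Γ : Type} (φ : X → Γ → ℝ)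
    (D : Finset Γ → Set (KK V × KK V)) (G : Finset Γ → Set C(X, ℝ))
    (s : Finset ((X ⊕ C(X, ℝ)) ⊕ Γ)) : Set ((X ⊕ C(X, ℝ)) ⊕ Γ) :=
  (((fun p : KK V × KK V => Sum.inl (Sum.inl (p.1 : X))) ''
      D (s.preimage Sum.inr Sum.inr_injective.injOn)) ∪
    ((fun p : KK V × KK V => Sum.inl (Sum.inl (p.2 : X))) ''
      D (s.preimage Sum.inr Sum.inr_injective.injOn))) ∪
    (((fun f : C(X, ℝ) => Sum.inl (Sum.inr f)) ''
      G (s.preimage Sum.inr Sum.inr_injective.injOn)) ∪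
    ⋃ z ∈ (s : Set ((X ⊕ C(X, ℝ)) ⊕ Γ)), {w | ∃ x ∈ KK V, z = Sum.inl (Sum.inl x) ∧
      ∃ γ ∈ Function.support (φ x), w = Sum.inr γ})

theorem nv_countable {X : Type} [TopologicalSpace X] {V : Set (X ⊕ C(X, ℝ))} {Γ : Type}
    {φ : X → Γ → ℝ} (hφ : ∀ x ∈ KK V, (Function.support (φ x)).Countable)
    {D : Finset Γ → Set (KK V × KK V)} (hD : ∀ s, (D s).Countable)
    {G : Finset Γ → Set C(X, ℝ)} (hG : ∀ s, (G s).Countable)
    (s : Finset ((X ⊕ C(X, ℝ)) ⊕ Γ)) : (nvG φ D G s).Countable := by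
  classical
  refine (((hD _).image _).union ((hD _).image _)).union (((hG _).image _).union ?_)
  refine s.countable_toSet.biUnion fun z _ => ?_
  rcases z with (x | f) | γ
  · by_cases hx : x ∈ KK V
    · refine ((hφ x hx).image (Sum.inr : Γ → (X ⊕ C(X, ℝ)) ⊕ Γ)).mono ?_
      rintro w ⟨x', _, h, γ, hγ, rfl⟩
      rw [← Sum.inl_injective (Sum.inl_injective h)] at hγ
      exact ⟨γ, hγ, rfl⟩
    · convert countable_empty
      ext w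
      simp only [mem_ofPred_eq, mem_empty_iff_false, iff_false, not_exists, not_and]
      rintro y' hy' h
      exact absurd (Sum.inl_injective (Sum.inl_injective h) ▸ hy') hx
  · convert countable_empty
    ext w
    simp
  · convert countable_empty
    ext w
    simp

theorem ns_small {X : Type} [TopologicalSpace X] [CompactSpace X] {V : Set (X ⊕ C(X, ℝ))}
    (hS : SigmaOn (KK V)) : NS V := by
  classical
  obtain ⟨Γ, φ, hφc, hφi, hφs⟩ := hS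
  have hcomp : CompactSpace (KK V) := isCompact_iff_compactSpace.1 isClosed_closure.isCompact
  have hφr : ∀ γ, Continuous fun x : KK V => φ x γ := fun γ =>
    (continuous_apply γ).comp (continuousOn_iff_continuous_domRestrict.1 hφc)
  obtain ⟨φ', hφ'⟩ : ∃ φ' : Γ → C(KK V, ℝ), ∀ γ x, φ' γ x = φ x γ :=
    ⟨fun γ => ⟨fun x => φ x γ, hφr γ⟩, fun _ _ => rfl⟩
  choose D G hDc hGc hGF hDF hDG using fun s : Finset Γ =>
    exists_sep_pairs φ' ((fun f : C(X, ℝ) => f.restrict (KK V)) '' fns V) s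
  have hlift : ∀ h : C(KK V, ℝ), h ∈ (fun f : C(X, ℝ) => f.restrict (KK V)) '' fns V →
      ∃ f : C(X, ℝ), f ∈ fns V ∧ f.restrict (KK V) = h := fun h hh => hh
  choose! li hli hli' using hlift
  have hgc : ∀ s, (nvG φ D (fun s => li '' G s) s).Countable :=
    nv_countable hφs hDc fun s => (hGc s).image _
  obtain ⟨g, hg1, hg2, hg3⟩ := exists_proj (nvG φ D fun s => li '' G s) hgc
    (Sum.inl : X ⊕ C(X, ℝ) → (X ⊕ C(X, ℝ)) ⊕ Γ) Sum.inl_injective V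
  refine ⟨g, hg1, hg2, fun N hNV _ hN => ?_⟩
  obtain ⟨N', hN', hNN'⟩ := hg3 N hNV hN
  -- the closed set `N'`
  have hpts : ∀ u ∈ pts N, (Sum.inl (Sum.inl u) : (X ⊕ C(X, ℝ)) ⊕ Γ) ∈ N' :=
    fun u hu => (hNN' _ (hNV hu)).2 hu
  have hsupp : ∀ u ∈ KK V, (Sum.inl (Sum.inl u) : (X ⊕ C(X, ℝ)) ⊕ Γ) ∈ N' →
      ∀ γ, φ u γ ≠ 0 → (Sum.inr γ : (X ⊕ C(X, ℝ)) ⊕ Γ) ∈ N' := by
    intro u hu huN γ hγ
    refine hN' {Sum.inl (Sum.inl u)} (by simpa using huN) ?_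
    refine Or.inr (Or.inr (mem_iUnion₂.2 ⟨Sum.inl (Sum.inl u), by simp, u, hu, rfl, γ, hγ, rfl⟩))
  have hkey : ∀ s : Finset Γ, (∀ γ ∈ s, (Sum.inr γ : (X ⊕ C(X, ℝ)) ⊕ Γ) ∈ N') →
      nvG φ D (fun s => li '' G s) (s.map ⟨Sum.inr, Sum.inr_injective⟩) ⊆ N' ∧
      (s.map ⟨(Sum.inr : Γ → (X ⊕ C(X, ℝ)) ⊕ Γ), Sum.inr_injective⟩).preimage Sum.inr
        Sum.inr_injective.injOn = s := by
    intro s hs
    constructor
    · refine hN' _ ?_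
      intro z hz
      obtain ⟨γ, hγ, rfl⟩ := Finset.mem_map.1 (Finset.mem_coe.1 hz)
      exact hs γ hγ
    · ext γ
      simp
  have hDN : ∀ s : Finset Γ, (∀ γ ∈ s, (Sum.inr γ : (X ⊕ C(X, ℝ)) ⊕ Γ) ∈ N') → ∀ p ∈ D s,
      (Sum.inl (Sum.inl (p.1 : X)) : (X ⊕ C(X, ℝ)) ⊕ Γ) ∈ N' ∧
      (Sum.inl (Sum.inl (p.2 : X)) : (X ⊕ C(X, ℝ)) ⊕ Γ) ∈ N' := by
    intro s hs p hp
    obtain ⟨h1, h2⟩ := hkey s hs
    refine ⟨h1 (Or.inl (Or.inl ⟨p, ?_, rfl⟩)), h1 (Or.inl (Or.inr ⟨p, ?_, rfl⟩))⟩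
    · rw [h2]
      exact hp
    · rw [h2]
      exact hp
  have hGN : ∀ s : Finset Γ, (∀ γ ∈ s, (Sum.inr γ : (X ⊕ C(X, ℝ)) ⊕ Γ) ∈ N') → ∀ h ∈ G s,
      li h ∈ fns N := by
    intro s hs h hh
    obtain ⟨h1, h2⟩ := hkey s hs
    have h3 : (Sum.inl (Sum.inr (li h)) : (X ⊕ C(X, ℝ)) ⊕ Γ) ∈ N' := by
      refine h1 (Or.inr (Or.inl ⟨li h, ?_, rfl⟩))
      rw [h2]
      exact ⟨h, hh, rfl⟩
    exact (hNN' _ (hli h (hGF s hh))).1 h3
  -- coordinates outside `N'` vanish on the closure of `pts N`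
  have hKN : KK N ⊆ KK V := KK_mono hNV
  have hzero : ∀ x ∈ KK N, ∀ γ, (Sum.inr γ : (X ⊕ C(X, ℝ)) ⊕ Γ) ∉ N' → φ x γ = 0 := by
    intro x hx γ hγ
    have h3 : Tendsto (fun b => φ b γ) (𝓝[pts N] x) (𝓝 (φ x γ)) :=
      ((continuous_apply γ).tendsto _).comp
        ((hφc x (hKN hx)).mono_left (nhdsWithin_mono _
          ((pts_mono hNV).trans subset_closure)))
    have h4 : ∀ᶠ b in 𝓝[pts N] x, φ b γ = 0 := by
      filter_upwards [self_mem_nhdsWithin] with b hb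
      by_contra hne
      exact hγ (hsupp b (subset_closure (hNV hb)) (hpts b hb) γ hne)
    have h5 : (𝓝[pts N] x).NeBot := mem_closure_iff_nhdsWithin_neBot.1 hx
    exact tendsto_nhds_unique h3 (tendsto_const_nhds.congr' (h4.mono fun b hb => hb.symm))
  intro x hx y hy hxy
  -- the set of pairs
  obtain ⟨A, hA⟩ : ∃ A : Set (KK V × KK V), A =
      {p | ((Sum.inl (Sum.inl (p.1 : X)) : (X ⊕ C(X, ℝ)) ⊕ Γ) ∈ N' ∧
        (Sum.inl (Sum.inl (p.2 : X)) : (X ⊕ C(X, ℝ)) ⊕ Γ) ∈ N') ∧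
        ∀ f ∈ fns V, f p.1 = f p.2} := ⟨_, rfl⟩
  obtain ⟨F2, hF2⟩ : ∃ F2 : Set C(KK V × KK V, ℝ), F2 =
      {h | ∃ γ, (Sum.inr γ : (X ⊕ C(X, ℝ)) ⊕ Γ) ∈ N' ∧
        ((∀ p, h p = φ' γ p.1) ∨ ∀ p, h p = φ' γ p.2)} := ⟨_, rfl⟩
  obtain ⟨q, hq1, hq2⟩ := exists_cluster (A := A) (F := F2)
    (x := ((⟨x, hKN hx⟩, ⟨y, hKN hy⟩) : KK V × KK V)) (by
    intro s hs n
    have hs' : ∀ h ∈ s, ∃ γ, (Sum.inr γ : (X ⊕ C(X, ℝ)) ⊕ Γ) ∈ N' ∧
        ((∀ p, h p = φ' γ p.1) ∨ ∀ p, h p = φ' γ p.2) := by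
      intro h hh
      have := hs (Finset.mem_coe.2 hh)
      rw [hF2] at this
      exact this
    choose c hc hc' using hs'
    obtain ⟨t, ht, htc⟩ : ∃ t : Finset Γ,
        (∀ γ ∈ t, (Sum.inr γ : (X ⊕ C(X, ℝ)) ⊕ Γ) ∈ N') ∧ ∀ h (hh : h ∈ s), c h hh ∈ t := by
      refine ⟨s.attach.image fun h => c h.1 h.2, ?_, fun h hh =>
        Finset.mem_image.2 ⟨⟨h, hh⟩, Finset.mem_attach _ _, rfl⟩⟩
      intro γ hγ
      obtain ⟨h, hh, rfl⟩ := Finset.mem_image.1 hγ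
      exact hc h.1 h.2
    obtain ⟨p, hp, hp'⟩ := hDG t ⟨x, hKN hx⟩ ⟨y, hKN hy⟩ (by
      intro h hh
      have h1 := hli' h (hGF _ hh)
      have h2 := hxy _ (hGN _ ht h hh)
      rw [← h1]
      exact h2) n
    refine ⟨p, ?_, ?_⟩
    · rw [hA]
      refine ⟨hDN _ ht p hp, fun f hf => ?_⟩
      exact hDF _ p hp _ ⟨f, hf, rfl⟩
    · intro h hh
      have h1 := hp' (c h hh) (htc h hh)
      rcases hc' h hh with h2 | h2
      · rw [h2, h2]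
        exact h1.1
      · rw [h2, h2]
        exact h1.2)
  -- zero coordinates of the cluster point
  have hAz : ∀ p ∈ A, ∀ γ, (Sum.inr γ : (X ⊕ C(X, ℝ)) ⊕ Γ) ∉ N' →
      φ' γ p.1 = 0 ∧ φ' γ p.2 = 0 := by
    intro p hp γ hγ
    rw [hA] at hp
    rw [hφ', hφ']
    constructor
    · by_contra hne
      exact hγ (hsupp _ p.1.2 hp.1.1 γ hne)
    · by_contra hne
      exact hγ (hsupp _ p.2.2 hp.1.2 γ hne)
  have hqz : ∀ γ, (Sum.inr γ : (X ⊕ C(X, ℝ)) ⊕ Γ) ∉ N' → φ' γ q.1 = 0 ∧ φ' γ q.2 = 0 := by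
    intro γ hγ
    have hcl : IsClosed {p : KK V × KK V | φ' γ p.1 = 0 ∧ φ' γ p.2 = 0} :=
      (isClosed_eq (by fun_prop) continuous_const).inter (isClosed_eq (by fun_prop) continuous_const)
    exact (closure_minimal (fun p hp => hAz p hp γ hγ) hcl) hq1
  have hfst : ∀ γ, φ' γ q.1 = φ x γ := by
    intro γ
    by_cases hγ : (Sum.inr γ : (X ⊕ C(X, ℝ)) ⊕ Γ) ∈ N'
    · have h1 := hq2 ((φ' γ).comp ContinuousMap.fst) (by
        rw [hF2]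
        exact ⟨γ, hγ, Or.inl fun p => rfl⟩)
      have h2 : φ' γ q.1 = φ' γ ⟨x, hKN hx⟩ := h1
      rw [h2, hφ']
    · rw [(hqz γ hγ).1, hzero x hx γ hγ]
  have hsnd : ∀ γ, φ' γ q.2 = φ y γ := by
    intro γ
    by_cases hγ : (Sum.inr γ : (X ⊕ C(X, ℝ)) ⊕ Γ) ∈ N'
    · have h1 := hq2 ((φ' γ).comp ContinuousMap.snd) (by
        rw [hF2]
        exact ⟨γ, hγ, Or.inr fun p => rfl⟩)
      have h2 : φ' γ q.2 = φ' γ ⟨y, hKN hy⟩ := h1
      rw [h2, hφ']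
    · rw [(hqz γ hγ).2, hzero y hy γ hγ]
  have hx' : (q.1 : X) = x := hφi q.1.2 (hKN hx) (funext fun γ => by rw [← hφ', hfst])
  have hy' : (q.2 : X) = y := hφi q.2.2 (hKN hy) (funext fun γ => by rw [← hφ', hsnd])
  intro f hf
  have hcl : IsClosed {p : KK V × KK V | f p.1 = f p.2} :=
    isClosed_eq (by fun_prop) (by fun_prop)
  have h1 : f q.1 = f q.2 := (closure_minimal (fun p hp => by
    rw [hA] at hp
    exact hp.2 f hf) hcl) hq1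
  rw [hx', hy'] at h1
  exact h1


end Pool.Agent.Lib_helper70.Lad
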