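import Pool.Agent.Lib_helper70.Lad.Defs
import Pool.Agent.Lib_helper70.Ladder.CH
import Pool.Agent.Lib_helper70.Ladder.CL
import Pool.Agent.Lib_helper89.Corson.Square

set_option autoImplicit false

namespace Pool.Agent.Lib_helper70.Lad

open Set Cardinal Topology Filter Order
open Pool.Agent.Lib_helper70.Cor Pool.Agent.Lib_helper89.Corson

/-- closed initial segments -/
theorem r1_cld {X : Type} [TopologicalSpace X] [CompactSpace X] {α : Type} [LinearOrder α]
    {W : Set (X ⊕ C(X, ℝ))} (e : α ≃ W) (hW : Cld g0 W) {β : α}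
    (hβ : ∀ s : Finset α, (s : Set α) ⊆ Iio β →
      {i | (e i : X ⊕ C(X, ℝ)) ∈ g0 (s.map ⟨fun i => (e i : X ⊕ C(X, ℝ)),
        Subtype.val_injective.comp e.injective⟩)} ⊆ Iio β) : Cld g0 (AA e β) := by
  classical
  intro s hs z hz
  have hsW : (s : Set (X ⊕ C(X, ℝ))) ⊆ W := by
    intro w hw
    obtain ⟨i, -, rfl⟩ := hs hw
    exact (e i).2
  have hzW : z ∈ W := hW s hsW hz
  have hinj : Function.Injective (fun i => (e i : X ⊕ C(X, ℝ))) :=
    Subtype.val_injective.comp e.injective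
  set t : Finset α := s.preimage (fun i => (e i : X ⊕ C(X, ℝ))) hinj.injOn with ht
  have hts : t.map ⟨fun i => (e i : X ⊕ C(X, ℝ)), hinj⟩ = s := by
    ext w
    rw [Finset.mem_map]
    constructor
    · rintro ⟨i, hi, rfl⟩
      rw [ht, Finset.mem_preimage] at hi
      exact hi
    · intro hw
      obtain ⟨i, -, rfl⟩ := hs hw
      exact ⟨i, by rw [ht, Finset.mem_preimage]; exact hw, rfl⟩
  have htβ : (t : Set α) ⊆ Iio β := by
    intro i hi
    rw [Finset.mem_coe, ht, Finset.mem_preimage] at hi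
    obtain ⟨j, hj, hji⟩ := hs hi
    exact hinj hji ▸ hj
  refine ⟨e.symm ⟨z, hzW⟩, hβ t htβ ?_, by simp⟩
  show (e (e.symm ⟨z, hzW⟩) : X ⊕ C(X, ℝ)) ∈ g0 _
  rw [hts]
  simpa using hz

theorem ns_regular_one {X : Type} [TopologicalSpace X] [CompactSpace X] (hF : Fr X)
    {α : Type} [LinearOrder α] [WellFoundedLT α] [IsRegularCardinalOrder α] (hα : ℵ₀ < #α)
    {W : Set (X ⊕ C(X, ℝ))} (e : α ≃ W) (hW : Cld g0 W)
    (hns : ∀ β : α, Cld g0 (AA e β) → NS (AA e β))
    (hT : ¬ IsStationary {β : α | Cld g0 (AA e β) ∧ cof (Iio β) = ℵ₀ ∧ ¬ Gd (AA e β) W}) :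
    NS W := by
  classical
  obtain ⟨C₁, hC₁, hdis⟩ := not_isStationary_iff.1 hT
  have hinj : Function.Injective (fun i => (e i : X ⊕ C(X, ℝ))) :=
    Subtype.val_injective.comp e.injective
  set F : Finset α → Set α := fun s => {i | (e i : X ⊕ C(X, ℝ)) ∈
    g0 (s.map ⟨fun i => (e i : X ⊕ C(X, ℝ)), hinj⟩)} with hFdef
  have hFc : ∀ s, (F s).Countable := fun s =>
    Set.Countable.preimage_of_injOn (g0_countable _) hinj.injOn
  have hC₀ := club_cld hα F hFc
  have hcof : cof α ≠ ℵ₀ := by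
    rw [cof_eq_cardinalMk]
    exact hα.ne'
  set C : Set α := {β : α | ∀ s : Finset α, (s : Set α) ⊆ Iio β → F s ⊆ Iio β} ∩ C₁ with hCdef
  have hC : IsClub C := hC₀.inter hcof hC₁
  have hcl : ∀ β ∈ C, Cld g0 (AA e β) := fun β hβ => r1_cld e hW hβ.1
  have hgd : ∀ β ∈ C, cof (Iio β) = ℵ₀ → Gd (AA e β) W := by
    intro β hβ hc
    by_contra h
    exact Set.disjoint_left.1 hdis ⟨hcl β hβ, hc, h⟩ hβ.2
  -- points of `C` of countable cofinality are cofinal
  have hsing : ∀ x : α, ∃ b : α, x < b := by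
    intro x
    obtain ⟨b, hb⟩ := bdd_of_card (s := ({x} : Set α)) (by
      rw [Cardinal.mk_singleton]
      exact one_lt_aleph0.trans hα)
    exact ⟨b, hb x rfl⟩
  have hup : ∀ x : α, ∃ y ∈ C, cof (Iio y) = ℵ₀ ∧ x < y := by
    intro x
    have hCx : IsClub (C ∩ Ioi x) := by
      constructor
      · intro d hd hne hdir a ha
        refine ⟨hC.dirSupClosed (hd.trans inter_subset_left) hne hdir ha, ?_⟩
        obtain ⟨c, hc⟩ := hne
        exact lt_of_lt_of_le (hd hc).2 (ha.1 hc)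
      · intro y
        obtain ⟨b, hb⟩ := hsing (max x y)
        obtain ⟨z, hz, hbz⟩ := hC.isCofinal b
        exact ⟨z, ⟨hz, ((le_max_left x y).trans_lt hb).trans_le hbz⟩,
          ((le_max_right x y).trans hb.le).trans hbz⟩
    obtain ⟨y, hy1, hy2, hy3⟩ := stationary_cof_aleph0 hα hCx
    exact ⟨y, hy2, hy1, hy3⟩
  choose up hup1 hup2 hup3 using hup
  have hne : Nonempty α := by
    rw [← Cardinal.mk_ne_zero_iff]
    exact (Cardinal.aleph0_pos.trans hα).ne'
  obtain ⟨a₀⟩ := hne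
  set ρ : X ⊕ C(X, ℝ) → {b : α // b ∈ C ∧ cof (Iio b) = ℵ₀} := fun z =>
    if h : z ∈ W then ⟨up (e.symm ⟨z, h⟩), hup1 _, hup2 _⟩ else ⟨up a₀, hup1 _, hup2 _⟩ with hρ
  refine ns_chain hF (fun b : {b : α // b ∈ C ∧ cof (Iio b) = ℵ₀} => AA e b.1) ?_ ρ ?_ ?_ ?_ ?_
  · rintro b z ⟨i, -, rfl⟩
    exact (e i).2
  · intro z hz
    refine ⟨e.symm ⟨z, hz⟩, ?_, by simp⟩
    rw [hρ]
    simp only [dif_pos hz]
    exact hup3 _
  · exact fun b => hcl b.1 b.2.1
  · exact fun b => hns b.1 (hcl b.1 b.2.1)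
  · intro c hc hcne
    by_cases hmax : ∃ b ∈ c, ∀ b' ∈ c, b' ≤ b
    · obtain ⟨b, hb, hb'⟩ := hmax
      have e1 : ⋃ i ∈ c, AA e i.1 = AA e b.1 := by
        apply Set.Subset.antisymm
        · refine iUnion₂_subset fun i hi => ?_
          exact image_mono (Iio_subset_Iio (hb' i hi))
        · exact subset_biUnion_of_mem (u := fun i : {b : α // b ∈ C ∧ cof (Iio b) = ℵ₀} =>
            AA e i.1) hb
      rw [e1]
      exact hgd b.1 b.2.1 b.2.2
    · push Not at hmax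
      set d : Set α := Subtype.val '' c with hd
      have hdc : d.Countable := hc.image _
      obtain ⟨u, hu⟩ := bdd_of_card (s := d) (lt_of_le_of_lt (by
        rw [Cardinal.mk_le_aleph0_iff]
        exact hdc.to_subtype) hα)
      obtain ⟨a, ha⟩ := exists_lub (s := d) ⟨u, fun z hz => (hu z hz).le⟩
      have hdC : d ⊆ C := by
        rintro _ ⟨b, -, rfl⟩
        exact b.2.1
      have hdne : d.Nonempty := hcne.image _
      have haC : a ∈ C := hC.isLUB_mem hdC hdne ha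
      have hlt : ∀ x ∈ d, x < a := by
        rintro _ ⟨b, hb, rfl⟩
        obtain ⟨b', hb', hlt⟩ := hmax b hb
        exact lt_of_lt_of_le hlt (ha.1 ⟨b', hb', rfl⟩)
      have hcofin : ∀ x < a, ∃ y ∈ d, x < y := by
        intro x hx
        obtain ⟨y, hy, hxy⟩ := (lt_isLUB_iff ha).1 hx
        exact ⟨y, hy, hxy⟩
      have hca : cof (Iio a) = ℵ₀ := by
        obtain ⟨y₀, hy₀⟩ := hdne
        have h0 : Nonempty (Iio a) := ⟨⟨y₀, hlt y₀ hy₀⟩⟩
        have h1 : NoMaxOrder (Iio a) := ⟨fun x => by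
          obtain ⟨y, hy, hxy⟩ := hcofin x x.2
          exact ⟨⟨y, hlt y hy⟩, hxy⟩⟩
        refine le_antisymm ?_ aleph0_le_cof
        have h2 : IsCofinal (Subtype.val ⁻¹' d : Set (Iio a)) := by
          intro x
          obtain ⟨y, hy, hxy⟩ := hcofin x x.2
          exact ⟨⟨y, hlt y hy⟩, hy, (show x < (⟨y, hlt y hy⟩ : Iio a) from hxy).le⟩
        refine (cof_le h2).trans ?_
        rw [Cardinal.mk_le_aleph0_iff]
        exact (hdc.preimage_of_injOn Subtype.val_injective.injOn).to_subtype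
      have e1 : ⋃ i ∈ c, AA e i.1 = AA e a := by
        apply Set.Subset.antisymm
        · refine iUnion₂_subset fun i hi => ?_
          exact image_mono (Iio_subset_Iio (hlt i.1 ⟨i, hi, rfl⟩).le)
        · rintro _ ⟨x, hx, rfl⟩
          obtain ⟨_, ⟨b, hb, rfl⟩, hxb⟩ := hcofin x hx
          rw [mem_iUnion₂]
          exact ⟨b, hb, ⟨x, hxb, rfl⟩⟩
      rw [e1]
      exact hgd a haC hca


end Pool.Agent.Lib_helper70.Lad
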