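import Pool.Agent.Lib_helper70.Lad.Defs
import Pool.Agent.Lib_helper70.Ladder.CL

set_option autoImplicit false

namespace Pool.Agent.Lib_helper70.Lad

open Set Cardinal Topology Filter Order
open Pool.Agent.Lib_helper70.Cor Pool.Agent.Lib_helper89.Corson

/-- a decoding map with unbounded fibres -/
theorem r2_dec {α : Type} [LinearOrder α] [WellFoundedLT α] [IsRegularCardinalOrder α]
    (hα : ℵ₀ < #α) : ∃ (dec : α → α × α) (code : α → α × α → α),
      ∀ b q, b < code b q ∧ dec (code b q) = q := by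
  have hinf : ℵ₀ ≤ #α := hα.le
  have hcard : #α = #(α × (α × α)) := by
    simp only [Cardinal.mk_prod, Cardinal.lift_id, Cardinal.mul_eq_self hinf]
  obtain ⟨E⟩ := Cardinal.eq.1 hcard
  have hex : ∀ (b : α) (q : α × α), ∃ ξ, b < ξ ∧ (E ξ).2 = q := by
    intro b q
    by_contra hcon
    push Not at hcon
    have h1 : range (fun a : α => E.symm (a, q)) ⊆ Iic b := by
      rintro _ ⟨a, rfl⟩
      by_contra h2
      have h3 : b < E.symm (a, q) := not_le.1 h2
      refine hcon _ h3 ?_
      rw [Equiv.apply_symm_apply]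
    have h4 : #α ≤ #(Iic b) := by
      have hinj : Function.Injective (fun a : α => E.symm (a, q)) := by
        intro a a' h
        have := E.symm.injective h
        exact congrArg Prod.fst this
      rw [← Cardinal.mk_range_eq _ hinj]
      exact Cardinal.mk_le_mk_of_subset h1
    obtain ⟨c, hc⟩ := bdd_of_card (s := ({b} : Set α)) (by
      rw [Cardinal.mk_singleton]
      exact one_lt_aleph0.trans hα)
    have h5 : #(Iic b) ≤ #(Iio c) := Cardinal.mk_le_mk_of_subset fun x hx =>
      lt_of_le_of_lt hx (hc b rfl)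
    exact absurd (mk_Iio_lt' c) (not_lt.2 (h4.trans h5))
  choose code hcode using hex
  exact ⟨fun ξ => (E ξ).2, code, hcode⟩

theorem exists_coded_ladder {α : Type} [LinearOrder α] [WellFoundedLT α]
    [IsRegularCardinalOrder α] (hα : ℵ₀ < #α) {T : Set α} (hT : IsStationary T)
    (hcof : ∀ β ∈ T, cof (Iio β) = ℵ₀) (p : α → ℕ → α × α)
    (hp : ∀ β ∈ T, ∀ n, (p β n).1 < β ∧ (p β n).2 < β) (r : α → α) :
    ∃ (S : Set α) (L : α → ℕ → α) (dec : α → α × α), S ⊆ T ∧ IsStationary S ∧ IsLadder S L ∧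
      (∀ β ∈ S, ∀ n, dec (L β n) = p β n) ∧ ∀ β ∈ S, ∀ γ < β, r γ < β := by
  classical
  obtain ⟨dec, code, hcode⟩ := r2_dec hα
  let F : Finset α → Set α := fun s =>
    ((s ×ˢ s ×ˢ s).image (fun t => code t.1 t.2) : Finset α) ∪ (s.image r : Finset α)
  have hF : ∀ s, (F s).Countable := fun s =>
    (Finset.countable_toSet _).union (Finset.countable_toSet _)
  have hclub := club_cld hα F hF
  set C : Set α := {β : α | ∀ s : Finset α, (s : Set α) ⊆ Iio β → F s ⊆ Iio β} with hC
  have hcofα : cof α ≠ ℵ₀ := by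
    rw [cof_eq_cardinalMk]
    exact hα.ne'
  have hstat : IsStationary (T ∩ C) := by
    intro t ht
    rw [inter_assoc]
    exact hT (hclub.inter hcofα ht)
  have hcodeC : ∀ β ∈ C, ∀ b i j, b < β → i < β → j < β → code b (i, j) < β := by
    intro β hβ b i j hb hi hj
    have h1 : ((({b, i, j} : Finset α)) : Set α) ⊆ Iio β := by
      intro x hx
      simp only [Finset.coe_insert, Finset.coe_singleton, mem_insert_iff, mem_singleton_iff] at hx
      rcases hx with rfl | rfl | rfl
      · exact hb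
      · exact hi
      · exact hj
    refine hβ _ h1 (Or.inl ?_)
    rw [Finset.coe_image]
    refine ⟨(b, i, j), ?_, rfl⟩
    simp
  have hrC : ∀ β ∈ C, ∀ γ < β, r γ < β := by
    intro β hβ γ hγ
    have h1 : ((({γ} : Finset α)) : Set α) ⊆ Iio β := by
      intro x hx
      simp only [Finset.coe_singleton, mem_singleton_iff] at hx
      rw [hx]
      exact hγ
    refine hβ _ h1 (Or.inr ?_)
    simp
  have hlad : ∀ β ∈ T ∩ C, ∃ η : ℕ → α, (StrictMono η ∧ (∀ n, η n < β) ∧ ∀ x < β, ∃ n, x < η n) ∧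
      ∀ n, dec (η n) = p β n := by
    rintro β ⟨hβT, hβC⟩
    obtain ⟨l, hl1, hl2, hl3⟩ := exists_ladder (hcof β hβT)
    let η : ℕ → α := fun n => Nat.rec (code (l 0) (p β 0))
      (fun n y => code (max (l (n + 1)) y) (p β (n + 1))) n
    have hη0 : η 0 = code (l 0) (p β 0) := rfl
    have hηs : ∀ n, η (n + 1) = code (max (l (n + 1)) (η n)) (p β (n + 1)) := fun n => rfl
    have hlt : ∀ n, η n < β := by
      intro n
      induction n with
      | zero =>
        rw [hη0]
        exact hcodeC β hβC _ _ _ (hl2 0) (hp β hβT 0).1 (hp β hβT 0).2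
      | succ n ih =>
        rw [hηs]
        exact hcodeC β hβC _ _ _ (max_lt (hl2 _) ih) (hp β hβT _).1 (hp β hβT _).2
    have hll : ∀ n, l n < η n := by
      intro n
      cases n with
      | zero => rw [hη0]; exact (hcode _ _).1
      | succ n => rw [hηs]; exact (le_max_left _ _).trans_lt (hcode _ _).1
    refine ⟨η, ⟨strictMono_nat_of_lt_succ fun n => ?_, hlt, fun x hx => ?_⟩, fun n => ?_⟩
    · rw [hηs]
      exact (le_max_right _ _).trans_lt (hcode _ _).1
    · obtain ⟨n, hn⟩ := hl3 x hx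
      exact ⟨n, hn.trans (hll n)⟩
    · cases n with
      | zero => rw [hη0]; exact (hcode _ _).2
      | succ n => rw [hηs]; exact (hcode _ _).2
  choose! L hL1 hL2 using hlad
  exact ⟨T ∩ C, L, dec, inter_subset_left, hstat, hL1, hL2, fun β hβ => hrC β hβ.2⟩

end Pool.Agent.Lib_helper70.Lad


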