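import Pool.Agent.Lib_helper70.Lad.Defs
import Pool.Agent.Lib_helper70.Ladder.NV
import Pool.Agent.Lib_helper70.Ladder.F1
import Pool.Agent.Lib_helper70.Ladder.F2

/-!
# Small subfamilies of the ladder system are free
-/

set_option autoImplicit false

namespace Pool.Agent.Lib_helper70.Lad

open Set Cardinal Topology Filter Order
open Pool.Agent.Lib_helper70.Cor Pool.Agent.Lib_helper89.Corson

/-- the operations -/
noncomputable def r3g {X : Type} [TopologicalSpace X] {α : Type} [LinearOrder α]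
    {W : Set (X ⊕ C(X, ℝ))} (e : α ≃ W) (L : α → ℕ → α) (dec : α → α × α) (J : Set α)
    (V : Set (X ⊕ C(X, ℝ))) (g : Finset (X ⊕ C(X, ℝ)) → Set (X ⊕ C(X, ℝ)))
    (dd : X ⊕ C(X, ℝ) → α) (F : X ⊕ C(X, ℝ) → α → α)
    (s : Finset (α ⊕ (X ⊕ C(X, ℝ)))) : Set (α ⊕ (X ⊕ C(X, ℝ))) :=
  (⋃ t ∈ ((s.preimage Sum.inr Sum.inr_injective.injOn).powerset : Finset _),
    Sum.inr '' (g t ∩ V)) ∪
  (⋃ ξ ∈ (s.preimage Sum.inl Sum.inl_injective.injOn : Finset α),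
    ((range fun n => Sum.inl (L ξ n)) ∪
      {Sum.inr (e (dec ξ).1 : X ⊕ C(X, ℝ)), Sum.inr (e (dec ξ).2 : X ⊕ C(X, ℝ))}) ∪
      ⋃ z ∈ (s.preimage Sum.inr Sum.inr_injective.injOn : Finset (X ⊕ C(X, ℝ))),
        Sum.inl '' {δ | z ∈ V ∧ δ ∈ J ∩ Iio (dd z) ∧ ξ ∈ range (L δ) ∧ F z δ < ξ})

theorem r3g_countable {X : Type} [TopologicalSpace X] {α : Type} [LinearOrder α]
    {W : Set (X ⊕ C(X, ℝ))} (e : α ≃ W) (L : α → ℕ → α) (dec : α → α × α) (J : Set α)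
    (V : Set (X ⊕ C(X, ℝ))) {g : Finset (X ⊕ C(X, ℝ)) → Set (X ⊕ C(X, ℝ))}
    (hg : ∀ s, (g s).Countable)
    (dd : X ⊕ C(X, ℝ) → α) (F : X ⊕ C(X, ℝ) → α → α)
    (hF : ∀ z ∈ V, ∀ δ ∈ J ∩ Iio (dd z), ∀ δ' ∈ J ∩ Iio (dd z), δ < δ' →
      ∀ ξ ∈ range (L δ), ξ ∈ range (L δ') → F z δ < ξ → F z δ' < ξ → False)
    (s : Finset (α ⊕ (X ⊕ C(X, ℝ)))) : (r3g e L dec J V g dd F s).Countable := by
  refine Countable.union ?_ ?_
  · refine Set.Countable.biUnion (Finset.countable_toSet _) fun t _ => ?_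
    exact ((hg t).mono inter_subset_left).image _
  · refine Set.Countable.biUnion (Finset.countable_toSet _) fun ξ _ => ?_
    refine ((countable_range _).union (by simp)).union ?_
    refine Set.Countable.biUnion (Finset.countable_toSet _) fun z _ => ?_
    refine Countable.image (Set.Subsingleton.countable ?_) _
    rintro δ ⟨hz, hδ, hξ, hFδ⟩ δ' ⟨_, hδ', hξ', hFδ'⟩
    rcases lt_trichotomy δ δ' with h | h | h
    · exact (hF z hz δ hδ δ' hδ' h ξ hξ hξ' hFδ hFδ').elim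
    · exact h
    · exact (hF z hz δ' hδ' δ hδ h ξ hξ' hξ hFδ' hFδ).elim

theorem r3_step {X : Type} [TopologicalSpace X] [CompactSpace X]
    (hX : ∀ A : Set X, #A ≤ 𝔠 → SigmaOn (closure A))
    {α : Type} [LinearOrder α] [WellFoundedLT α] 
    {W : Set (X ⊕ C(X, ℝ))} (e : α ≃ W) {S : Set α} {L : α → ℕ → α} (hL : IsLadder S L)
    (dec : α → α × α) (x y : α → X) (a b : α → ℕ → X) (f : α → C(X, ℝ)) (r : α → α)
    (ha : ∀ β ∈ S, ∀ n, (e (dec (L β n)).1 : X ⊕ C(X, ℝ)) = Sum.inl (a β n))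
    (hb : ∀ β ∈ S, ∀ n, (e (dec (L β n)).2 : X ⊕ C(X, ℝ)) = Sum.inl (b β n))
    (hlt : ∀ β ∈ S, ∀ n, (dec (L β n)).1 < β ∧ (dec (L β n)).2 < β)
    (hxa : ∀ β ∈ S, Tendsto (a β) atTop (𝓝 (x β))) (hyb : ∀ β ∈ S, Tendsto (b β) atTop (𝓝 (y β)))
    (hf : ∀ β ∈ S, f β (x β) ≠ f β (y β))
    (hr : ∀ β ∈ S, (e (r β) : X ⊕ C(X, ℝ)) = Sum.inr (f β))
    (hrlt : ∀ β ∈ S, ∀ γ < β, r γ < β)
    (hun : ∀ β ∈ S, ∀ h : C(X, ℝ), Sum.inr h ∈ AA e β → h (x β) = h (y β))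
    {J : Set α} (hJ : J ⊆ S) (hJc : #J ≤ 𝔠) (hmax : ∀ δ ∈ J, ∃ δ' ∈ J, δ < δ')
    (ih : ∀ δ ∈ J, Free L (J ∩ Iio δ)) : Free L J := by
  classical
  rcases J.eq_empty_or_nonempty with hJe | ⟨δ₀, hδ₀⟩
  · subst hJe
    exact ⟨id, by simp, by simp⟩
  have hne : Nonempty α := ⟨δ₀⟩
  let V : Set (X ⊕ C(X, ℝ)) := {z | ∃ δ ∈ J, (∃ n, z = Sum.inl (a δ n) ∨ z = Sum.inl (b δ n)) ∨
    z = Sum.inr (f δ)}
  have hV : ∀ z : X ⊕ C(X, ℝ), z ∈ V → ∃ i δ' : α, δ' ∈ J ∧ i < δ' ∧ (e i : X ⊕ C(X, ℝ)) = z := by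
    rintro z ⟨δ, hδ, ⟨n, rfl | rfl⟩ | rfl⟩
    · exact ⟨_, δ, hδ, (hlt δ (hJ hδ) n).1, ha δ (hJ hδ) n⟩
    · exact ⟨_, δ, hδ, (hlt δ (hJ hδ) n).2, hb δ (hJ hδ) n⟩
    · obtain ⟨δ', hδ', hlt'⟩ := hmax δ hδ
      exact ⟨r δ, δ', hδ', hrlt δ' (hJ hδ') δ hlt', hr δ (hJ hδ)⟩
  choose! τ dd hdd hτ he using hV
  have hcard : #(pts V) ≤ 𝔠 := by
    let m : J × ℕ × Bool → X := fun q => if q.2.2 then a q.1 q.2.1 else b q.1 q.2.1
    have h1 : pts V ⊆ range m := by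
      rintro u ⟨δ, hδ, ⟨n, h | h⟩ | h⟩
      · exact ⟨(⟨δ, hδ⟩, n, true), (Sum.inl_injective h).symm⟩
      · exact ⟨(⟨δ, hδ⟩, n, false), (Sum.inl_injective h).symm⟩
      · exact absurd h (by simp)
    refine (mk_le_mk_of_subset h1).trans (mk_range_le.trans ?_)
    rw [mk_prod, lift_id, lift_id]
    refine (mul_le_mul' hJc ?_).trans (mul_eq_self aleph0_le_continuum).le
    exact (mk_le_aleph0 (α := ℕ × Bool)).trans aleph0_le_continuum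
  obtain ⟨g, hg, hgV, hgN⟩ := ns_small (V := V) (hX _ hcard)
  have hih : ∀ z ∈ V, Free L (J ∩ Iio (dd z)) := fun z hz => ih _ (hdd z hz)
  choose! F hF1 hF2 using hih
  refine free_of_cld hL hJ (g := r3g e L dec J V g dd F)
    (r3g_countable e L dec J V hg dd F hF2) Sum.inl Sum.inl_injective ?_ ?_
  · intro N hN δ _ hδN n
    refine hN {Sum.inl δ} (by simpa using hδN) (Or.inr ?_)
    exact mem_iUnion₂.2 ⟨δ, by simp, Or.inl (Or.inl ⟨n, rfl⟩)⟩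
  · intro N hN δ hδ hδN
    by_contra hinf
    have hinf' : {n | (Sum.inl (L δ n) : α ⊕ (X ⊕ C(X, ℝ))) ∈ N}.Infinite := hinf
    set I := {n | (Sum.inl (L δ n) : α ⊕ (X ⊕ C(X, ℝ))) ∈ N} with hI
    set M := hull (r3g e L dec J V g dd F) ((fun n => Sum.inl (L δ n)) '' I) with hM
    have hMc : M.Countable := hull_countable (r3g_countable e L dec J V hg dd F hF2)
      ((to_countable I).image _)
    have hMcl : Cld (r3g e L dec J V g dd F) M := hull_cld _ _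
    have hMN : M ⊆ N := hull_min hN (by
      rintro _ ⟨n, hn, rfl⟩
      exact hn)
    have hIM : ∀ n ∈ I, (Sum.inl (L δ n) : α ⊕ (X ⊕ C(X, ℝ))) ∈ M :=
      fun n hn => subset_hull _ _ ⟨n, hn, rfl⟩
    let N' : Set (X ⊕ C(X, ℝ)) := {z | z ∈ V ∧ (Sum.inr z : α ⊕ (X ⊕ C(X, ℝ))) ∈ M}
    have hN'V : N' ⊆ V := fun z hz => hz.1
    have hN'c : N'.Countable := (hMc.preimage Sum.inr_injective).mono fun z hz => hz.2
    have hN'cl : Cld g N' := by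
      intro t ht w hw
      have hwV : w ∈ V := hgV t (ht.trans hN'V) hw
      refine ⟨hwV, ?_⟩
      refine hMcl (t.map ⟨Sum.inr, Sum.inr_injective⟩) ?_ (Or.inl ?_)
      · intro z hz
        obtain ⟨z', hz', rfl⟩ := Finset.mem_map.1 (Finset.mem_coe.1 hz)
        exact (ht hz').2
      · refine mem_iUnion₂.2 ⟨t, ?_, ⟨w, ⟨hw, hwV⟩, rfl⟩⟩
        simp only [Finset.mem_powerset]
        intro z hz
        simp only [Finset.mem_preimage, Finset.mem_map, Function.Embedding.coeFn_mk]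
        exact ⟨z, hz, rfl⟩
    have hGd := hgN N' hN'V hN'c hN'cl
    have hpt : ∀ n ∈ I, a δ n ∈ pts N' ∧ b δ n ∈ pts N' := by
      intro n hn
      have h1 : (Sum.inr (e (dec (L δ n)).1 : X ⊕ C(X, ℝ)) : α ⊕ (X ⊕ C(X, ℝ))) ∈ M ∧
          (Sum.inr (e (dec (L δ n)).2 : X ⊕ C(X, ℝ)) : α ⊕ (X ⊕ C(X, ℝ))) ∈ M := by
        constructor
        · refine hMcl {Sum.inl (L δ n)} (by simpa using hIM n hn) (Or.inr ?_)
          exact mem_iUnion₂.2 ⟨L δ n, by simp, Or.inl (Or.inr (by simp))⟩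
        · refine hMcl {Sum.inl (L δ n)} (by simpa using hIM n hn) (Or.inr ?_)
          exact mem_iUnion₂.2 ⟨L δ n, by simp, Or.inl (Or.inr (by simp))⟩
      rw [ha δ (hJ hδ) n, hb δ (hJ hδ) n] at h1
      exact ⟨⟨⟨δ, hδ, Or.inl ⟨n, Or.inl rfl⟩⟩, h1.1⟩, ⟨⟨δ, hδ, Or.inl ⟨n, Or.inr rfl⟩⟩, h1.2⟩⟩
    have hfr : ∃ᶠ n in atTop, n ∈ I := Nat.frequently_atTop_iff_infinite.2 hinf'
    have hx : x δ ∈ KK N' := mem_closure_of_frequently_of_tendsto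
      (hfr.mono fun n hn => (hpt n hn).1) (hxa δ (hJ hδ))
    have hy : y δ ∈ KK N' := mem_closure_of_frequently_of_tendsto
      (hfr.mono fun n hn => (hpt n hn).2) (hyb δ (hJ hδ))
    have hsep : ∃ h ∈ fns N', h (x δ) ≠ h (y δ) := by
      by_contra hno
      push Not at hno
      exact hf δ (hJ hδ) (hGd _ hx _ hy hno (f δ) ⟨δ, hδ, Or.inr rfl⟩)
    obtain ⟨h, hh, hne⟩ := hsep
    have hhV : (Sum.inr h : X ⊕ C(X, ℝ)) ∈ V := hh.1
    have h1 : δ ≤ τ (Sum.inr h) := by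
      by_contra hlt'
      push Not at hlt'
      exact hne (hun δ (hJ hδ) h ⟨τ (Sum.inr h), hlt', he _ hhV⟩)
    have h2 : δ ∈ J ∩ Iio (dd (Sum.inr h)) := ⟨hδ, h1.trans_lt (hτ _ hhV)⟩
    have h3 := hF1 _ hhV δ h2
    obtain ⟨hmono, -, hcof⟩ := hL δ (hJ hδ)
    obtain ⟨m, hm⟩ := hcof _ h3
    obtain ⟨n, hn, hmn⟩ := hinf'.exists_gt m
    have h4 : F (Sum.inr h) δ < L δ n := hm.trans (hmono hmn)
    refine hδN (hMN (hMcl {Sum.inl (L δ n), Sum.inr (Sum.inr h)} ?_ (Or.inr ?_)))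
    · intro z hz
      rw [Finset.coe_insert, Finset.coe_singleton] at hz
      rcases hz with rfl | hz
      · exact hIM n hn
      · rw [mem_singleton_iff] at hz
        rw [hz]
        exact hh.2
    · refine mem_iUnion₂.2 ⟨L δ n, by simp, Or.inr ?_⟩
      exact mem_iUnion₂.2 ⟨Sum.inr h, by simp, δ, ⟨hhV, h2, ⟨n, rfl⟩, h4⟩, rfl⟩

theorem free_small {X : Type} [TopologicalSpace X] [CompactSpace X]
    (hX : ∀ A : Set X, #A ≤ 𝔠 → SigmaOn (closure A))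
    {α : Type} [LinearOrder α] [WellFoundedLT α] [IsRegularCardinalOrder α] (hα : 𝔠 < #α)
    {W : Set (X ⊕ C(X, ℝ))} (e : α ≃ W) {S : Set α} {L : α → ℕ → α} (hL : IsLadder S L)
    (dec : α → α × α) (x y : α → X) (a b : α → ℕ → X) (f : α → C(X, ℝ)) (r : α → α)
    (ha : ∀ β ∈ S, ∀ n, (e (dec (L β n)).1 : X ⊕ C(X, ℝ)) = Sum.inl (a β n))
    (hb : ∀ β ∈ S, ∀ n, (e (dec (L β n)).2 : X ⊕ C(X, ℝ)) = Sum.inl (b β n))
    (hlt : ∀ β ∈ S, ∀ n, (dec (L β n)).1 < β ∧ (dec (L β n)).2 < β)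
    (hxa : ∀ β ∈ S, Tendsto (a β) atTop (𝓝 (x β))) (hyb : ∀ β ∈ S, Tendsto (b β) atTop (𝓝 (y β)))
    (hf : ∀ β ∈ S, f β (x β) ≠ f β (y β))
    (hr : ∀ β ∈ S, (e (r β) : X ⊕ C(X, ℝ)) = Sum.inr (f β))
    (hrlt : ∀ β ∈ S, ∀ γ < β, r γ < β)
    (hun : ∀ β ∈ S, ∀ h : C(X, ℝ), Sum.inr h ∈ AA e β → h (x β) = h (y β))
    {J : Set α} (hJ : J ⊆ S) (hJc : #J ≤ 𝔠) : Free L J := by
  classical
  have key : ∀ β : α, ∀ J : Set α, J ⊆ S → (∀ δ ∈ J, δ < β) → #J ≤ 𝔠 → Free L J := by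
    intro β
    induction β using WellFoundedLT.induction with
    | ind β ih =>
      intro J hJ hJβ hJc
      by_cases hmax : ∀ δ ∈ J, ∃ δ' ∈ J, δ < δ'
      · refine r3_step hX e hL dec x y a b f r ha hb hlt hxa hyb hf hr hrlt hun hJ hJc hmax ?_
        intro δ hδ
        exact ih δ (hJβ δ hδ) _ (inter_subset_left.trans hJ) (fun γ hγ => hγ.2)
          ((mk_le_mk_of_subset inter_subset_left).trans hJc)
      · push Not at hmax
        obtain ⟨m, hm, hmm⟩ := hmax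
        have h1 : J = insert m (J ∩ Iio m) := by
          ext δ
          constructor
          · intro hδ
            rcases lt_or_eq_of_le (hmm δ hδ) with h | h
            · exact Or.inr ⟨hδ, h⟩
            · exact Or.inl h
          · rintro (rfl | hδ)
            · exact hm
            · exact hδ.1
        rw [h1]
        refine free_insert hL (inter_subset_left.trans hJ) (hJ hm) (fun δ hδ => hδ.2) ?_
        exact ih m (hJβ m hm) _ (inter_subset_left.trans hJ) (fun γ hγ => hγ.2)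
          ((mk_le_mk_of_subset inter_subset_left).trans hJc)
  obtain ⟨β, hβ⟩ := bdd_of_card (s := J) (hJc.trans_lt hα)
  exact key β J hJ hβ hJc


end Pool.Agent.Lib_helper70.Lad
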