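import Pool.Agent.Lib_helper70.Lad.Defs
import Pool.Agent.Lib_helper70.Ladder.R2
import Pool.Agent.Lib_helper70.Ladder.R3

set_option autoImplicit false

namespace Pool.Agent.Lib_helper70.Lad

open Set Cardinal Topology Filter Order
open Pool.Agent.Lib_helper70.Cor Pool.Agent.Lib_helper89.Corson

theorem r4_data {X : Type} [TopologicalSpace X] (hF : Fr X)
    {α : Type} [LinearOrder α] {W : Set (X ⊕ C(X, ℝ))} (e : α ≃ W) {β : α}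
    (h : ¬ Gd (AA e β) W) : ∃ (x y : X) (f : C(X, ℝ)) (a b : ℕ → X) (p : ℕ → α × α) (r : α),
      (∀ n, (e (p n).1 : X ⊕ C(X, ℝ)) = Sum.inl (a n)) ∧
      (∀ n, (e (p n).2 : X ⊕ C(X, ℝ)) = Sum.inl (b n)) ∧
      (∀ n, (p n).1 < β ∧ (p n).2 < β) ∧ Tendsto a atTop (𝓝 x) ∧ Tendsto b atTop (𝓝 y) ∧
      f x ≠ f y ∧ (e r : X ⊕ C(X, ℝ)) = Sum.inr f ∧
      ∀ h : C(X, ℝ), Sum.inr h ∈ AA e β → h x = h y := by
  unfold Gd at h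
  push Not at h
  obtain ⟨x, hx, y, hy, hxy, f, hf, hne⟩ := h
  obtain ⟨a, ha, hax⟩ := hF _ _ hx
  obtain ⟨b, hb, hby⟩ := hF _ _ hy
  choose p1 hp1 hp1' using ha
  choose p2 hp2 hp2' using hb
  refine ⟨x, y, f, a, b, fun n => (p1 n, p2 n), e.symm ⟨Sum.inr f, hf⟩, hp1', hp2',
    fun n => ⟨hp1 n, hp2 n⟩, hax, hby, hne, by simp, fun h hh => hxy h hh⟩

theorem ns_regular_two {X : Type} [TopologicalSpace X] [CompactSpace X] (hF : Fr X)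
    (hX : ∀ A : Set X, #A ≤ 𝔠 → SigmaOn (closure A))
    {α : Type} [LinearOrder α] [WellFoundedLT α] [IsRegularCardinalOrder α] (hα : 𝔠 < #α)
    {W : Set (X ⊕ C(X, ℝ))} (e : α ≃ W)
    (hT : IsStationary {β : α | Cld g0 (AA e β) ∧ cof (Iio β) = ℵ₀ ∧ ¬ Gd (AA e β) W}) :
    ∃ (S : Set α) (L : α → ℕ → α), IsStationary S ∧ IsLadder S L ∧
      ∀ J ⊆ S, #J ≤ 𝔠 → Free L J := by
  classical
  obtain ⟨β₀, hβ₀⟩ := hT.nonempty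
  obtain ⟨x₀, y₀, f₀, a₀, b₀, p₀, r₀, -⟩ := r4_data hF e hβ₀.2.2
  have hd : ∀ β : α, ∃ (x y : X) (f : C(X, ℝ)) (a b : ℕ → X) (p : ℕ → α × α) (r : α),
      ¬ Gd (AA e β) W → (∀ n, (e (p n).1 : X ⊕ C(X, ℝ)) = Sum.inl (a n)) ∧
      (∀ n, (e (p n).2 : X ⊕ C(X, ℝ)) = Sum.inl (b n)) ∧
      (∀ n, (p n).1 < β ∧ (p n).2 < β) ∧ Tendsto a atTop (𝓝 x) ∧ Tendsto b atTop (𝓝 y) ∧
      f x ≠ f y ∧ (e r : X ⊕ C(X, ℝ)) = Sum.inr f ∧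
      ∀ h : C(X, ℝ), Sum.inr h ∈ AA e β → h x = h y := by
    intro β
    by_cases h : Gd (AA e β) W
    · exact ⟨x₀, y₀, f₀, a₀, b₀, p₀, r₀, fun h' => absurd h h'⟩
    · obtain ⟨x, y, f, a, b, p, r, hh⟩ := r4_data hF e h
      exact ⟨x, y, f, a, b, p, r, fun _ => hh⟩
  choose x y f a b p r hd using hd
  obtain ⟨S, L, dec, hST, hS, hL, hdec, hr⟩ := exists_coded_ladder
    (aleph0_lt_continuum.trans hα) hT (fun β hβ => hβ.2.1) p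
    (fun β hβ n => (hd β hβ.2.2).2.2.1 n) r
  have h' := fun β (hβ : β ∈ S) => hd β (hST hβ).2.2
  refine ⟨S, L, hS, hL, fun J hJ hJc => ?_⟩
  refine free_small hX hα e hL dec x y a b f r ?_ ?_ ?_ ?_ ?_ ?_ ?_ ?_ ?_ hJ hJc
  · intro β hβ n
    rw [hdec β hβ]
    exact (h' β hβ).1 n
  · intro β hβ n
    rw [hdec β hβ]
    exact (h' β hβ).2.1 n
  · intro β hβ n
    rw [hdec β hβ]
    exact (h' β hβ).2.2.1 n
  · exact fun β hβ => (h' β hβ).2.2.2.1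
  · exact fun β hβ => (h' β hβ).2.2.2.2.1
  · exact fun β hβ => (h' β hβ).2.2.2.2.2.1
  · exact fun β hβ => (h' β hβ).2.2.2.2.2.2.1
  · exact hr
  · exact fun β hβ => (h' β hβ).2.2.2.2.2.2.2


end Pool.Agent.Lib_helper70.Lad
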