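import Pool.Agent.Lib_helper70.Ladder.FR
import Pool.Agent.Lib_helper70.Ladder.NV
import Pool.Agent.Lib_helper70.Ladder.R1
import Pool.Agent.Lib_helper70.Ladder.R4
import Pool.Agent.Lib_helper70.Ladder.NG
import Pool.Agent.Lib_helper70.Ladder.CV

/-!
# Assembly: the induction on the cardinality
-/

set_option autoImplicit false

namespace Pool.Agent.Lib_helper70.Lad

open Set Cardinal Topology Filter Order
open Pool.Agent.Lib_helper70.Cor Pool.Agent.Lib_helper89.Corson

/-- Compactness of ladder systems for the continuum: for every regular cardinal above the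
continuum, every ladder system on a stationary set has a subfamily of size at most continuum which
cannot be made disjoint by removing initial segments. -/
def LadderCompactness : Prop :=
  ∀ (α : Type) [LinearOrder α] [WellFoundedLT α] [IsRegularCardinalOrder α],
    continuum < #α → ∀ (S : Set α) (L : α → ℕ → α), IsStationary S → IsLadder S L →
      ∃ J ⊆ S, #J ≤ continuum ∧ ¬ Free L J

theorem ns_all {X : Type} [TopologicalSpace X] [CompactSpace X] [T2Space X]
    (hL : LadderCompactness) (hX : ∀ A : Set X, #A ≤ 𝔠 → SigmaOn (closure A)) :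
    ∀ (κ : Cardinal.{0}) (W : Set (X ⊕ C(X, ℝ))), #W = κ → Cld g0 W → NS W := by
  have hF : Fr X := fr_of_small hX
  intro κ
  induction κ using WellFoundedLT.induction with
  | ind κ ih =>
    intro W hWκ hW
    rcases le_or_gt κ 𝔠 with hc | hc
    · refine ns_small (hX _ ?_)
      refine le_trans ?_ hc
      rw [← hWκ]
      exact mk_le_of_injective (f := fun x : pts W => (⟨Sum.inl x.1, x.2⟩ : W)) (by
        intro x y h
        exact Subtype.ext (Sum.inl_injective (congrArg Subtype.val h)))
    · by_cases hs : κ.IsRegular
      · have := regular_toType hs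
        have hα : #κ.ord.ToType = κ := by simp
        obtain ⟨e⟩ : Nonempty (κ.ord.ToType ≃ W) := by
          rw [← Cardinal.eq, hα, hWκ]
        by_cases hT : IsStationary {β : κ.ord.ToType |
            Cld g0 (AA e β) ∧ cof (Iio β) = ℵ₀ ∧ ¬ Gd (AA e β) W}
        · obtain ⟨S, L, hS, hLad, hfree⟩ := ns_regular_two hF hX (by rw [hα]; exact hc) e hT
          obtain ⟨J, hJ, hJc, hno⟩ := hL _ (by rw [hα]; exact hc) S L hS hLad
          exact absurd (hfree J hJ hJc) hno
        · refine ns_regular_one hF (by rw [hα]; exact aleph0_lt_continuum.trans hc) e hW ?_ hT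
          intro β hβ
          refine ih _ ?_ (AA e β) rfl hβ
          refine lt_of_le_of_lt (mk_image_le) ?_
          have := mk_Iio_lt' β
          rwa [hα] at this
      · refine ns_singular hF hW (by rw [hWκ]; exact hc) (by rw [hWκ]; exact hs) ?_
        intro A hAW hA hlt
        exact ih _ (by rwa [hWκ] at hlt) A rfl hA

theorem sigma_of_ladder {X : Type} [TopologicalSpace X] [CompactSpace X] [T2Space X]
    (hL : LadderCompactness) (hX : ∀ A : Set X, #A ≤ 𝔠 → SigmaOn (closure A)) :
    SigmaOn (Set.univ : Set X) := by
  obtain ⟨g, hg, -, hN⟩ := ns_all hL hX _ Set.univ rfl (cld_univ _)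
  refine sigma_univ hg fun N hNc hcl => ?_
  intro x hx y hy hxy
  have h1 := hN N (subset_univ _) hNc hcl x hx y hy hxy
  by_contra hne
  obtain ⟨f, hf0, hf1, _⟩ := exists_continuous_zero_one_of_isClosed (isClosed_singleton (x := x))
    (isClosed_singleton (x := y)) (by simpa using hne)
  have h2 := h1 f (mem_univ _)
  rw [hf0 (mem_singleton x), hf1 (mem_singleton y)] at h2
  simp at h2

/-- a non compact ladder system gives a counterexample -/
theorem counterexample_of_ladder {α : Type} [LinearOrder α] [WellFoundedLT α]
    [IsRegularCardinalOrder α] (hα : continuum < #α) {S : Set α} {L : α → ℕ → α}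
    (hS : IsStationary S) (hL : IsLadder S L) (hfree : ∀ J ⊆ S, #J ≤ continuum → Free L J) :
    ∃ (X : Type) (_ : TopologicalSpace X), CompactSpace X ∧ T2Space X ∧
      (∀ A : Set X, #A ≤ continuum → TwoSupp (closure A)) ∧
      ¬ ∃ (Γ : Type) (f : X → (Γ → ℝ)),
        Topology.IsEmbedding f ∧ ∀ x, (Function.support (f x)).Countable := by
  let D : Data α := ⟨S, L, hL⟩
  exact ⟨D.X, inferInstance, inferInstance, inferInstance,
    fun A hA => twoSupp_small D hfree A hA,
    not_corson D (aleph0_lt_continuum.trans hα) hS⟩

end Pool.Agent.Lib_helper70.Lad
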